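import Mathlib

/-!
# Smoothed Waring: the greedy (deterministic) part
-/

set_option autoImplicit false

namespace Pool.Agent.J4H38.SW

theorem rpow_aux {k : ℕ} {x : ℝ} (hx : 0 ≤ x) (e : ℝ) :
    x ^ (e * k) = (x ^ k) ^ e := by
  rw [mul_comm, Real.rpow_mul hx, Real.rpow_natCast]

/-- one greedy step. -/
theorem step {k : ℕ} (hk : 2 ≤ k) {γ θ C : ℝ} (hγ : 0 < γ) (h1 : 1 - 1 / (k : ℝ) ≤ θ) (h2 : γ ≤ θ)
    (h3 : θ < 1) (hC : 0 ≤ C) (u : ℕ → ℕ) (hu : ∀ g : ℕ, 1 ≤ g → (u g : ℝ) ≤ C * (g : ℝ) ^ (γ * k))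
    {L ρ A : ℝ} (hL : 1 ≤ L) (hρ : ρ ≤ L) (hA0 : 0 ≤ A) (hA : -A ≤ ρ) :
    ∃ g : ℕ, Odd g ∧ (g : ℝ) ≤ L ∧ -(A + (1 + C)) ≤ ρ - ((g ^ k + u g : ℕ) : ℝ) ∧
      ρ - ((g ^ k + u g : ℕ) : ℝ) ≤ (2 * k + C) * 3 ^ k * L ^ θ := by
  have hk0 : (0 : ℝ) < k := by positivity
  have hθ0 : 0 < θ := lt_of_lt_of_le hγ h2
  have hLθ : 1 ≤ L ^ θ := Real.one_le_rpow hL hθ0.le
  have hk2 : (2 : ℝ) ≤ k := by exact_mod_cast hk
  have h3k : (1 : ℝ) ≤ 3 ^ k := one_le_pow₀ (by norm_num)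
  have hone : (u 1 : ℝ) ≤ C := by simpa using hu 1 le_rfl
  rcases lt_or_ge ρ (1 + C) with hlt | hge
  · refine ⟨1, odd_one, by simpa using hL, ?_, ?_⟩
    · push_cast
      rw [one_pow]
      linarith
    · push_cast
      rw [one_pow]
      have h4 : (0 : ℝ) ≤ u 1 := Nat.cast_nonneg _
      have h5 : 1 * 1 ≤ (2 * k + C) * 3 ^ k * L ^ θ → True := fun _ => trivial
      have h6 : (2 * k + C) * 1 ≤ (2 * k + C) * 3 ^ k := by gcongr
      have h7 : (2 * k + C) * 3 ^ k * 1 ≤ (2 * k + C) * 3 ^ k * L ^ θ := by gcongr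
      linarith
  · -- the largest admissible odd number
    have hb : ∀ i : ℕ, (((2 * i + 1 : ℕ) : ℝ) ^ k + C * ((2 * i + 1 : ℕ) : ℝ) ^ (γ * k) ≤ ρ) →
        i ≤ ⌊ρ⌋₊ := by
      intro i hi
      apply Nat.le_floor
      have h4 : (0 : ℝ) ≤ C * ((2 * i + 1 : ℕ) : ℝ) ^ (γ * k) := by positivity
      have h5 : ((2 * i + 1 : ℕ) : ℝ) ≤ ((2 * i + 1 : ℕ) : ℝ) ^ k :=
        le_self_pow₀ (by exact_mod_cast (by omega : 1 ≤ 2 * i + 1)) (by omega)
      have h6 : (i : ℝ) ≤ ((2 * i + 1 : ℕ) : ℝ) := by exact_mod_cast (by omega : i ≤ 2 * i + 1)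
      linarith
    classical
    set P : ℕ → Prop := fun i =>
      (((2 * i + 1 : ℕ) : ℝ) ^ k + C * ((2 * i + 1 : ℕ) : ℝ) ^ (γ * k) ≤ ρ) with hP
    have hP0 : P 0 := by
      simp only [hP]
      norm_num
      exact hge
    set i := Nat.findGreatest P ⌊ρ⌋₊ with hi
    have hPi : P i := Nat.findGreatest_spec (P := P) (Nat.zero_le _) hP0
    have hPn : ¬ P (i + 1) := by
      intro hc
      have h4 : i + 1 ≤ i := Nat.le_findGreatest (hb _ hc) hc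
      omega
    set g : ℕ := 2 * i + 1 with hg
    have hg1 : 1 ≤ g := by omega
    have hg1' : (1 : ℝ) ≤ g := by exact_mod_cast hg1
    have hPi' : (g : ℝ) ^ k + C * (g : ℝ) ^ (γ * k) ≤ ρ := hPi
    have hPn' : ρ < ((g : ℝ) + 2) ^ k + C * ((g : ℝ) + 2) ^ (γ * k) := by
      have h4 : ρ < ((2 * (i + 1) + 1 : ℕ) : ℝ) ^ k + C * ((2 * (i + 1) + 1 : ℕ) : ℝ) ^ (γ * k) :=
        not_le.1 hPn
      have h5 : ((2 * (i + 1) + 1 : ℕ) : ℝ) = (g : ℝ) + 2 := by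
        rw [hg]
        push_cast
        ring
      rwa [h5] at h4
    have hnn : (0 : ℝ) ≤ C * (g : ℝ) ^ (γ * k) := by positivity
    have hgk : (g : ℝ) ^ k ≤ L := by linarith
    have hgL : (g : ℝ) ≤ L := (le_self_pow₀ hg1' (by omega)).trans hgk
    refine ⟨g, ⟨i, hg⟩, hgL, ?_, ?_⟩
    · push_cast
      have := hu g hg1
      linarith
    · push_cast
      have h4 : (0 : ℝ) ≤ u g := Nat.cast_nonneg _
      set y : ℝ := (g : ℝ) + 2 with hy
      have hy0 : 0 < y := by positivity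
      have hy1 : 1 ≤ y := by linarith
      have hy3 : y ≤ 3 * g := by linarith
      have hyk : y ^ k ≤ 3 ^ k * L := by
        calc y ^ k ≤ (3 * g) ^ k := by gcongr
          _ = 3 ^ k * (g : ℝ) ^ k := by rw [mul_pow]
          _ ≤ 3 ^ k * L := by gcongr
      have h3L : 1 ≤ 3 ^ k * L := by nlinarith
      have hbig : (3 ^ k * L) ^ θ ≤ 3 ^ k * L ^ θ := by
        rw [Real.mul_rpow (by positivity) (by positivity)]
        gcongr
        calc ((3 : ℝ) ^ k) ^ θ ≤ ((3 : ℝ) ^ k) ^ (1 : ℝ) :=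
              Real.rpow_le_rpow_of_exponent_le h3k h3.le
          _ = 3 ^ k := Real.rpow_one _
      have h5 : y ^ (γ * k) ≤ 3 ^ k * L ^ θ := by
        rw [rpow_aux hy0.le]
        calc (y ^ k) ^ γ ≤ (3 ^ k * L) ^ γ := by gcongr
          _ ≤ (3 ^ k * L) ^ θ := Real.rpow_le_rpow_of_exponent_le h3L h2
          _ ≤ _ := hbig
      have h6 : y ^ (k - 1) ≤ 3 ^ k * L ^ θ := by
        have h7 : y ^ (k - 1) = (y ^ k) ^ (1 - 1 / (k : ℝ)) := by
          rw [← rpow_aux hy0.le, ← Real.rpow_natCast]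
          congr 1
          rw [Nat.cast_sub (by omega), Nat.cast_one]
          field_simp
        rw [h7]
        have h8 : (0 : ℝ) ≤ 1 - 1 / (k : ℝ) := by
          rw [sub_nonneg, div_le_one hk0]
          linarith
        calc (y ^ k) ^ (1 - 1 / (k : ℝ)) ≤ (3 ^ k * L) ^ (1 - 1 / (k : ℝ)) := by gcongr
          _ ≤ (3 ^ k * L) ^ θ := Real.rpow_le_rpow_of_exponent_le h3L h1
          _ ≤ _ := hbig
      have h9 : y ^ k - (g : ℝ) ^ k ≤ 2 * k * y ^ (k - 1) := by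
        have h10 : y ^ k - (g : ℝ) ^ k = (y - g) * ∑ i ∈ Finset.range k, y ^ i * (g : ℝ) ^ (k - 1 - i) := by
          rw [mul_comm, (Commute.all y (g : ℝ)).geom_sum₂_mul]
        rw [h10]
        have h11 : y - g = 2 := by rw [hy]; ring
        rw [h11]
        have h12 : ∑ i ∈ Finset.range k, y ^ i * (g : ℝ) ^ (k - 1 - i) ≤ ∑ i ∈ Finset.range k, y ^ (k - 1) := by
          apply Finset.sum_le_sum
          intro i hi
          have hi' := Finset.mem_range.1 hi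
          calc y ^ i * (g : ℝ) ^ (k - 1 - i) ≤ y ^ i * y ^ (k - 1 - i) := by
                gcongr
                linarith
            _ = y ^ (k - 1) := by
                rw [← pow_add]
                congr 1
                omega
        rw [Finset.sum_const, Finset.card_range, nsmul_eq_mul] at h12
        linarith
      calc ρ - ((g : ℝ) ^ k + u g) ≤ (y ^ k + C * y ^ (γ * k)) - (g : ℝ) ^ k := by linarith
        _ ≤ 2 * k * y ^ (k - 1) + C * y ^ (γ * k) := by linarith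
        _ ≤ 2 * k * (3 ^ k * L ^ θ) + C * (3 ^ k * L ^ θ) := by gcongr
        _ = _ := by ring

/-- several greedy steps. -/
theorem greedy {k : ℕ} (hk : 2 ≤ k) {γ θ C : ℝ} (hγ : 0 < γ) (h1 : 1 - 1 / (k : ℝ) ≤ θ)
    (h2 : γ ≤ θ) (h3 : θ < 1) (hC : 0 ≤ C) (j : ℕ) :
    ∃ K : ℝ, 1 ≤ K ∧ ∀ u : ℕ → ℕ, (∀ g : ℕ, 1 ≤ g → (u g : ℝ) ≤ C * (g : ℝ) ^ (γ * k)) →
      ∀ L ρ : ℝ, 1 ≤ L → 0 ≤ ρ → ρ ≤ L → ∃ g : Fin j → ℕ, (∀ i, Odd (g i)) ∧
        (∀ i, (g i : ℝ) ≤ K * L) ∧ -(j * (1 + C)) ≤ ρ - ((∑ i, (g i ^ k + u (g i)) : ℕ) : ℝ) ∧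
        ρ - ((∑ i, (g i ^ k + u (g i)) : ℕ) : ℝ) ≤ K * L ^ (θ ^ j) := by
  have hθ0 : 0 < θ := lt_of_lt_of_le hγ h2
  have hk2 : (2 : ℝ) ≤ k := by exact_mod_cast hk
  have h3k : (1 : ℝ) ≤ 3 ^ k := one_le_pow₀ (by norm_num)
  have hK0 : 1 ≤ (2 * k + C) * 3 ^ k := by nlinarith
  induction j with
  | zero =>
    refine ⟨1, le_rfl, ?_⟩
    intro u hu L ρ hL h0 hρ
    refine ⟨Fin.elim0, fun i => i.elim0, fun i => i.elim0, ?_, ?_⟩
    · simpa using h0
    · simpa using hρ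
  | succ j ih =>
    obtain ⟨K, hK, H⟩ := ih
    refine ⟨(2 * k + C) * 3 ^ k * K, by nlinarith, ?_⟩
    intro u hu L ρ hL h0 hρ
    obtain ⟨g, hg1, hg2, hg3, hg4⟩ := H u hu L ρ hL h0 hρ
    have hθj : 0 < θ ^ j := by positivity
    have hLj : 1 ≤ L ^ (θ ^ j) := Real.one_le_rpow hL hθj.le
    have hL' : 1 ≤ K * L ^ (θ ^ j) := by nlinarith
    have hLL : K * L ^ (θ ^ j) ≤ K * L := by
      gcongr
      calc L ^ (θ ^ j) ≤ L ^ (1 : ℝ) :=
            Real.rpow_le_rpow_of_exponent_le hL (pow_le_one₀ hθ0.le h3.le)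
        _ = L := Real.rpow_one _
    have hKL : K * L ≤ (2 * k + C) * 3 ^ k * K * L := by
      have : 1 * (K * L) ≤ (2 * k + C) * 3 ^ k * (K * L) := by gcongr
      linarith
    obtain ⟨g', hg'1, hg'2, hg'3, hg'4⟩ := step hk hγ h1 h2 h3 hC u hu hL' hg4
      (A := j * (1 + C)) (by positivity) hg3
    refine ⟨Fin.cons g' g, ?_, ?_, ?_, ?_⟩
    · intro i
      refine Fin.cases ?_ (fun i => ?_) i
      · simpa using hg'1
      · simpa using hg1 i
    · intro i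
      refine Fin.cases ?_ (fun i => ?_) i
      · simp only [Fin.cons_zero]
        linarith
      · simp only [Fin.cons_succ]
        have := hg2 i
        linarith
    · rw [Fin.sum_univ_succ]
      simp only [Fin.cons_zero, Fin.cons_succ]
      push_cast at hg'3 ⊢
      linarith
    · rw [Fin.sum_univ_succ]
      simp only [Fin.cons_zero, Fin.cons_succ]
      have h5 : (K * L ^ (θ ^ j)) ^ θ ≤ K * L ^ (θ ^ (j + 1)) := by
        rw [Real.mul_rpow (by positivity) (by positivity), ← Real.rpow_mul (by positivity), pow_succ]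
        gcongr
        calc K ^ θ ≤ K ^ (1 : ℝ) := Real.rpow_le_rpow_of_exponent_le hK h3.le
          _ = K := Real.rpow_one _
      have h6 : (2 * k + C) * 3 ^ k * (K * L ^ (θ ^ j)) ^ θ ≤
          (2 * k + C) * 3 ^ k * (K * L ^ (θ ^ (j + 1))) := by gcongr
      push_cast at hg'4 ⊢
      linarith

end Pool.Agent.J4H38.SW
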