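import Pool.Agent.J4H38.SW.Prob
import Pool.Agent.J4H38.SW.Greedy

/-!
# Smoothed Waring: blocks
-/

set_option autoImplicit false

open MeasureTheory ProbabilityTheory

namespace Pool.Agent.J4H38.SW

variable {Ω : Type*} [MeasurableSpace Ω] {μ : Measure Ω}

/-- iteration over blocks. -/
theorem blocks [IsProbabilityMeasure μ] {X : ℕ → Ω → ℕ} (hX : ∀ n, Measurable (X n))
    (hi : iIndepFun X μ) (O : Finset ℕ) (I : ℕ → Finset ℕ) (hO : ∀ b, Disjoint O (I b))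
    (hI : ∀ a b, a ≠ b → Disjoint (I a) (I b)) (E : Set (O → ℕ))
    (G : (b : ℕ) → (O → ℕ) → Set (I b → ℕ)) {p : ℝ} (hp0 : 0 ≤ p) (B : ℕ)
    (hp : ∀ b < B, ∀ z ∈ E, μ.real (rs X (I b) ⁻¹' G b z) ≤ p) :
    μ.real {ω | rs X O ω ∈ E ∧ ∀ b < B, rs X (I b) ω ∈ G b (rs X O ω)} ≤ p ^ B := by
  classical
  induction B with
  | zero => simp
  | succ B ih =>
    have ih' := ih (fun b hb => hp b (by omega))
    set S : Finset ℕ := O ∪ (Finset.range B).biUnion I with hS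
    have hOS : ∀ i ∈ O, i ∈ S := fun i h => Finset.mem_union_left _ h
    have hIS : ∀ b < B, ∀ i ∈ I b, i ∈ S := fun b hb i h =>
      Finset.mem_union_right _ (Finset.mem_biUnion.2 ⟨b, Finset.mem_range.2 hb, h⟩)
    have hdis : Disjoint S (I B) := by
      rw [hS, Finset.disjoint_union_left]
      refine ⟨hO B, (Finset.disjoint_biUnion_left _ _ _).2 (fun b hb => hI _ _ ?_)⟩
      have := Finset.mem_range.1 hb
      omega
    let toO : (S → ℕ) → (O → ℕ) := fun z i => ext S z i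
    let toI : (b : ℕ) → (S → ℕ) → (I b → ℕ) := fun b z i => ext S z i
    have e1 : ∀ ω, toO (rs X S ω) = rs X O ω := fun ω =>
      funext (fun i => ext_rs X S ω (hOS i i.2))
    have e2 : ∀ b < B, ∀ ω, toI b (rs X S ω) = rs X (I b) ω := fun b hb ω =>
      funext (fun i => ext_rs X S ω (hIS b hb i i.2))
    have h := block_le (μ := μ) hX hi S (I B) hdis
      {z | toO z ∈ E ∧ ∀ b < B, toI b z ∈ G b (toO z)} (fun z => G B (toO z)) hp0
      (fun z hz => hp B (Nat.lt_succ_self _) _ hz.1)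
    have e3 : rs X S ⁻¹' {z | toO z ∈ E ∧ ∀ b < B, toI b z ∈ G b (toO z)} =
        {ω | rs X O ω ∈ E ∧ ∀ b < B, rs X (I b) ω ∈ G b (rs X O ω)} := by
      ext ω
      simp only [Set.mem_preimage, Set.mem_ofPred_eq, e1]
      constructor
      · rintro ⟨a1, a2⟩
        exact ⟨a1, fun b hb => by rw [← e2 b hb ω]; exact a2 b hb⟩
      · rintro ⟨a1, a2⟩
        exact ⟨a1, fun b hb => by rw [e2 b hb ω]; exact a2 b hb⟩
    rw [e3] at h
    calc μ.real {ω | rs X O ω ∈ E ∧ ∀ b < B + 1, rs X (I b) ω ∈ G b (rs X O ω)}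
        ≤ μ.real {ω | rs X S ω ∈ {z | toO z ∈ E ∧ ∀ b < B, toI b z ∈ G b (toO z)} ∧
            rs X (I B) ω ∈ G B (toO (rs X S ω))} := by
          apply measureReal_mono _ (measure_ne_top _ _)
          rintro ω ⟨a1, a2⟩
          refine ⟨?_, ?_⟩
          · simp only [Set.mem_ofPred_eq, e1]
            exact ⟨a1, fun b hb => by rw [e2 b hb ω]; exact a2 b (by omega)⟩
          · rw [e1]
            exact a2 B (Nat.lt_succ_self _)
      _ ≤ p * μ.real {ω | rs X O ω ∈ E ∧ ∀ b < B, rs X (I b) ω ∈ G b (rs X O ω)} := h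
      _ ≤ p * p ^ B := by gcongr
      _ = p ^ (B + 1) := by rw [pow_succ]; ring

/-- one block fails with probability bounded away from one. -/
theorem block_fail [IsProbabilityMeasure μ] {X : ℕ → Ω → ℕ} (hX : ∀ n, Measurable (X n))
    (hi : iIndepFun X μ) {m l : ℕ} (n : Fin (m + 1) → Fin l → ℕ)
    (hn : ∀ p i p' i', n p i = n p' i' → p = p' ∧ i = i') {M c C : ℝ} (hM : 0 < M) (hc : 0 < c)
    (hC : 0 < C)
    (hlo : ∀ p i (j : ℕ), (j : ℝ) ≤ c * M → c / M ≤ μ.real {ω | X (n p i) ω = j})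
    (hup : ∀ p i (j : ℕ), μ.real {ω | X (n p i) ω = j} ≤ C / M)
    (r : (Fin (m + 1) → Fin l) → ℕ) (hr1 : ∀ t, c / 2 * M ≤ r t) (hr2 : ∀ t, (r t : ℝ) ≤ c * M)
    {ε c₁ : ℝ} (hc1 : c₁ = c * (c ^ 2 / (2 * (m + 1))) ^ m) (hε : ε = c₁ / (4 * C ^ 2))
    (hεM : 1 ≤ ε * M) (hl : ε * M ≤ (l : ℝ) ^ (m + 1)) :
    μ.real {ω | ∀ t : Fin (m + 1) → Fin l, ∑ p, X (n p (t p)) ω ≠ r t} ≤ 1 - 3 / 8 * ε * c₁ := by
  classical
  have hc1p : 0 < c₁ := by rw [hc1]; positivity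
  have hεp : 0 < ε := by rw [hε]; positivity
  have hcard : ⌊ε * M⌋₊ ≤ (Finset.univ : Finset (Fin (m + 1) → Fin l)).card := by
    rw [Finset.card_univ, Fintype.card_fun, Fintype.card_fin, Fintype.card_fin]
    have h1 : ((⌊ε * M⌋₊ : ℕ) : ℝ) ≤ ((l ^ (m + 1) : ℕ) : ℝ) := by
      push_cast
      exact (Nat.floor_le (by positivity)).trans hl
    exact_mod_cast h1
  obtain ⟨T, _, hT⟩ := Finset.exists_subset_card_eq hcard
  set A : (Fin (m + 1) → Fin l) → Set Ω := fun t => {ω | ∑ p, X (n p (t p)) ω = r t} with hA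
  have hAm : ∀ t, MeasurableSet (A t) := fun t =>
    (Finset.measurable_sum _ (fun p _ => hX _)) (measurableSet_singleton (r t))
  have h1 := bonferroni (μ := μ) A hAm (c₁ / M) ((C / M) ^ 2)
    (fun t => by
      rw [hc1]
      exact event_lower hX hi (fun p => n p (t p)) (fun p p' h => (hn _ _ _ _ h).1) hM hc
        (fun p j hj => hlo _ _ j hj) (r t) (hr1 t) (hr2 t))
    (by positivity)
    (fun t t' h => pair_upper hX hi n hn (by positivity) hup (r t) (r t') t t' h) T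
  have hsub : {ω | ∀ t : Fin (m + 1) → Fin l, ∑ p, X (n p (t p)) ω ≠ r t} ⊆ (⋃ t ∈ T, A t)ᶜ := by
    intro ω hω hc
    obtain ⟨t, _, ht⟩ := Set.mem_iUnion₂.1 hc
    exact hω t ht
  have hcm : μ.real (⋃ t ∈ T, A t)ᶜ = 1 - μ.real (⋃ t ∈ T, A t) :=
    probReal_compl_eq_one_sub (Finset.measurableSet_biUnion _ (fun t _ => hAm t))
  have h2 : μ.real {ω | ∀ t : Fin (m + 1) → Fin l, ∑ p, X (n p (t p)) ω ≠ r t} ≤
      1 - μ.real (⋃ t ∈ T, A t) := by
    rw [← hcm]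
    exact measureReal_mono hsub (measure_ne_top _ _)
  set τ : ℝ := (T.card : ℝ) with hτ
  have hτ1 : τ ≤ ε * M := by
    rw [hτ, hT]
    exact Nat.floor_le (by positivity)
  have hτ2 : ε * M / 2 ≤ τ := by
    rw [hτ, hT]
    have h3 := Nat.lt_floor_add_one (ε * M)
    have h4 : (1 : ℝ) ≤ (⌊ε * M⌋₊ : ℝ) := by
      exact_mod_cast (Nat.one_le_floor_iff _).2 hεM
    linarith
  have h5 : 3 / 8 * ε * c₁ ≤ τ * (c₁ / M) - τ ^ 2 * (C / M) ^ 2 := by
    have e1 : τ * (c₁ / M) - τ ^ 2 * (C / M) ^ 2 = τ / M * (c₁ - τ / M * C ^ 2) := by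
      field_simp
    have e2 : ε / 2 ≤ τ / M := by
      rw [le_div_iff₀ hM]
      linarith
    have e3 : τ / M ≤ ε := by
      rw [div_le_iff₀ hM]
      exact hτ1
    have e4 : ε * C ^ 2 = c₁ / 4 := by
      rw [hε]
      field_simp
    have e5 : τ / M * C ^ 2 ≤ c₁ / 4 := by
      rw [← e4]
      gcongr
    rw [e1]
    have e6 : 3 / 4 * c₁ ≤ c₁ - τ / M * C ^ 2 := by linarith
    calc 3 / 8 * ε * c₁ = ε / 2 * (3 / 4 * c₁) := by ring
      _ ≤ τ / M * (c₁ - τ / M * C ^ 2) := by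
          gcongr
  linarith

/-- sums of `s` perturbed `k`-th powers. -/
def Rep (k : ℕ) (u : ℕ → ℕ) (s N : ℕ) : Prop :=
  ∃ n : Fin s → ℕ, (∀ i, 1 ≤ n i) ∧ ∑ i, (n i ^ k + u (n i)) = N

/-- the core estimate for one `N`. -/
theorem core [IsProbabilityMeasure μ] {X : ℕ → Ω → ℕ} (hX : ∀ n, Measurable (X n))
    (hi : iIndepFun X μ) {k m j l Q B N : ℕ} {γ c C K e : ℝ} (hc : 0 < c) (hC : 0 < C)
    (hgr : ∀ u : ℕ → ℕ, (∀ g : ℕ, 1 ≤ g → (u g : ℝ) ≤ C * (g : ℝ) ^ (γ * k)) →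
      ∀ L ρ : ℝ, 1 ≤ L → 0 ≤ ρ → ρ ≤ L → ∃ g : Fin j → ℕ, (∀ i, Odd (g i)) ∧
        (∀ i, (g i : ℝ) ≤ K * L) ∧ -(j * (1 + C)) ≤ ρ - ((∑ i, (g i ^ k + u (g i)) : ℕ) : ℝ) ∧
        ρ - ((∑ i, (g i ^ k + u (g i)) : ℕ) : ℝ) ≤ K * L ^ e)
    (hQ : 1 ≤ Q) (hN : 1 ≤ N) (hBl : B * ((m + 1) * l) ≤ Q) {M : ℝ} (hM : 0 < M)
    (hlo : ∀ n : ℕ, 2 * Q ≤ n → n ≤ 4 * Q → ∀ i : ℕ, (i : ℝ) ≤ c * M →
      c / M ≤ μ.real {ω | X n ω = i})
    (hup : ∀ n : ℕ, 2 * Q ≤ n → n ≤ 4 * Q → ∀ i : ℕ, μ.real {ω | X n ω = i} ≤ C / M)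
    (hsum : (m + 1) * (4 * Q) ^ k + ⌈3 / 4 * c * M⌉₊ ≤ N) (hj : j * (1 + C) ≤ c / 4 * M)
    (hres : 1 + K * (N : ℝ) ^ e ≤ c / 4 * M) {ε c₁ : ℝ}
    (hc1 : c₁ = c * (c ^ 2 / (2 * (m + 1))) ^ m) (hε : ε = c₁ / (4 * C ^ 2))
    (hεM : 1 ≤ ε * M) (hl : ε * M ≤ (l : ℝ) ^ (m + 1)) :
    μ.real {ω | (∀ g : ℕ, 1 ≤ g → (X g ω : ℝ) ≤ C * (g : ℝ) ^ (γ * k)) ∧
      ¬ Rep k (fun g => X g ω) (m + 1 + j) N} ≤ Real.exp (-(3 / 8 * ε * c₁) * B) := by
  classical
  rcases Nat.eq_zero_or_pos B with h0 | h0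
  · subst h0
    rw [Nat.cast_zero, mul_zero, Real.exp_zero]
    exact measureReal_le_one
  have hc1p : 0 < c₁ := by rw [hc1]; positivity
  have hεp : 0 < ε := by rw [hε]; positivity
  have hN' : (1 : ℝ) ≤ N := by exact_mod_cast hN
  set O : Finset ℕ := (Finset.range (⌊K * N⌋₊ + 1)).filter Odd with hO
  set E : Set (O → ℕ) := {z | ∀ g : O, (z g : ℝ) ≤ C * ((g : ℕ) : ℝ) ^ (γ * k)} with hE
  have hext : ∀ z ∈ E, ∀ g : ℕ, 1 ≤ g → (ext O z g : ℝ) ≤ C * (g : ℝ) ^ (γ * k) := by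
    intro z hz g hg
    by_cases h : g ∈ O
    · have := hz ⟨g, h⟩
      simpa [ext, h] using this
    · simp only [ext, h, dif_neg, not_false_eq_true, Nat.cast_zero]
      positivity
  have hmO : ∀ g : ℕ, Odd g → (g : ℝ) ≤ K * N → g ∈ O := by
    intro g h1 h2
    rw [hO, Finset.mem_filter, Finset.mem_range]
    exact ⟨Nat.lt_succ_of_le (Nat.le_floor h2), h1⟩
  -- the residual
  have hr : ∀ (z : O → ℕ) (ν : ℕ), ∃ r : ℕ, (z ∈ E → ν + ⌈3 / 4 * c * M⌉₊ ≤ N →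
      (c / 2 * M ≤ r ∧ (r : ℝ) ≤ c * M ∧ ∃ g : Fin j → ℕ, (∀ i, g i ∈ O) ∧ (∀ i, 1 ≤ g i) ∧
        ν + ∑ i, (g i ^ k + ext O z (g i)) + r = N)) := by
    intro z ν
    by_cases hz : z ∈ E
    · by_cases hν : ν + ⌈3 / 4 * c * M⌉₊ ≤ N
      · have hνr : (ν : ℝ) + (⌈3 / 4 * c * M⌉₊ : ℝ) ≤ N := by exact_mod_cast hν
        have hν0 : (0 : ℝ) ≤ ν := Nat.cast_nonneg _
        have hce0 : (0 : ℝ) ≤ (⌈3 / 4 * c * M⌉₊ : ℝ) := Nat.cast_nonneg _
        have hce1 : 3 / 4 * c * M ≤ (⌈3 / 4 * c * M⌉₊ : ℝ) := Nat.le_ceil _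
        have hce2 : (⌈3 / 4 * c * M⌉₊ : ℝ) < 3 / 4 * c * M + 1 := Nat.ceil_lt_add_one (by positivity)
        obtain ⟨g, hg1, hg2, hg3, hg4⟩ := hgr (ext O z) (hext z hz) N
          (N - ν - ⌈3 / 4 * c * M⌉₊) hN' (by linarith) (by linarith)
        have h1 : (0 : ℝ) ≤ c * M := by positivity
        have h2 : ((ν + ∑ i, (g i ^ k + ext O z (g i)) : ℕ) : ℝ) ≤ (N : ℝ) := by
          rw [Nat.cast_add]
          linarith
        have h3 : ν + ∑ i, (g i ^ k + ext O z (g i)) ≤ N := by exact_mod_cast h2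
        obtain ⟨r, hr⟩ := Nat.exists_eq_add_of_le h3
        have h4 : (N : ℝ) = ν + ((∑ i, (g i ^ k + ext O z (g i)) : ℕ) : ℝ) + r := by
          exact_mod_cast hr
        refine ⟨r, fun _ _ => ⟨by linarith, by linarith, g, fun i => hmO _ (hg1 i) (hg2 i),
          fun i => (hg1 i).pos, hr.symm⟩⟩
      · exact ⟨0, fun _ h => absurd h hν⟩
    · exact ⟨0, fun h => absurd h hz⟩
  choose r hr using hr
  -- the blocks
  let n : ℕ → Fin (m + 1) → Fin l → ℕ := fun b p i => 2 * (Q + ((b * (m + 1) + p) * l + i))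
  have hn : ∀ b b' p p' i i', n b p i = n b' p' i' → b = b' ∧ p = p' ∧ i = i' := by
    intro b b' p p' i i' h
    have h1 : (b * (m + 1) + p) * l + i = (b' * (m + 1) + p') * l + (i' : ℕ) := by
      simp only [n] at h
      omega
    have hl0 : 0 < l := lt_of_le_of_lt (Nat.zero_le _) i.2
    have h2 : (b * (m + 1) + p) = (b' * (m + 1) + (p' : ℕ)) := by
      have e1 : ((b * (m + 1) + p) * l + i) / l = b * (m + 1) + p := by
        rw [mul_comm, Nat.mul_add_div hl0, Nat.div_eq_of_lt i.2, add_zero]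
      have e2 : ((b' * (m + 1) + p') * l + (i' : ℕ)) / l = b' * (m + 1) + p' := by
        rw [mul_comm, Nat.mul_add_div hl0, Nat.div_eq_of_lt i'.2, add_zero]
      rw [← e1, ← e2, h1]
    have h3 : (i : ℕ) = i' := by
      rw [h2] at h1
      omega
    have h4 : b = b' := by
      have e1 : (b * (m + 1) + p) / (m + 1) = b := by
        rw [mul_comm, Nat.mul_add_div (by omega), Nat.div_eq_of_lt p.2, add_zero]
      have e2 : (b' * (m + 1) + (p' : ℕ)) / (m + 1) = b' := by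
        rw [mul_comm, Nat.mul_add_div (by omega), Nat.div_eq_of_lt p'.2, add_zero]
      rw [← e1, ← e2, h2]
    have h5 : (p : ℕ) = p' := by
      rw [h4] at h2
      omega
    exact ⟨h4, Fin.ext h5, Fin.ext h3⟩
  have hrange : ∀ b < B, ∀ p i, 2 * Q ≤ n b p i ∧ n b p i ≤ 4 * Q := by
    intro b hb p i
    have h1 : (b * (m + 1) + p) * l + i < Q := by
      have hp := p.2
      have hi' := i.2
      calc (b * (m + 1) + p) * l + i < (b * (m + 1) + p) * l + l := by omega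
        _ = (b * (m + 1) + (p + 1)) * l := by ring
        _ ≤ (b * (m + 1) + (m + 1)) * l := by gcongr; omega
        _ = (b + 1) * ((m + 1) * l) := by ring
        _ ≤ B * ((m + 1) * l) := by gcongr; omega
        _ ≤ Q := hBl
    simp only [n]
    omega
  let I : ℕ → Finset ℕ := fun b => Finset.univ.image (fun q : Fin (m + 1) × Fin l => n b q.1 q.2)
  have hmI : ∀ b p i, n b p i ∈ I b := fun b p i =>
    Finset.mem_image.2 ⟨(p, i), Finset.mem_univ _, rfl⟩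
  have hOI : ∀ b, Disjoint O (I b) := by
    intro b
    rw [Finset.disjoint_left]
    intro a ha hb
    obtain ⟨q, _, hq⟩ := Finset.mem_image.1 hb
    have h1 : Odd a := (Finset.mem_filter.1 ha).2
    rw [← hq] at h1
    simp only [n] at h1
    exact (Nat.not_odd_iff_even.2 (even_two_mul _)) h1
  have hII : ∀ a b, a ≠ b → Disjoint (I a) (I b) := by
    intro a b hab
    rw [Finset.disjoint_left]
    intro x hx hy
    obtain ⟨q, _, hq⟩ := Finset.mem_image.1 hx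
    obtain ⟨q', _, hq'⟩ := Finset.mem_image.1 hy
    exact hab (hn _ _ _ _ _ _ (hq.trans hq'.symm)).1
  let ν : ℕ → (Fin (m + 1) → Fin l) → ℕ := fun b t => ∑ p, (n b p (t p)) ^ k
  have hν : ∀ b < B, ∀ t, ν b t + ⌈3 / 4 * c * M⌉₊ ≤ N := by
    intro b hb t
    have h1 : ν b t ≤ (m + 1) * (4 * Q) ^ k := by
      calc ν b t ≤ ∑ _p : Fin (m + 1), (4 * Q) ^ k :=
            Finset.sum_le_sum (fun p _ => Nat.pow_le_pow_left (hrange b hb p (t p)).2 k)
        _ = (m + 1) * (4 * Q) ^ k := by simp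
    omega
  let G : (b : ℕ) → (O → ℕ) → Set (I b → ℕ) := fun b z =>
    {v | ∀ t : Fin (m + 1) → Fin l, ∑ p, ext (I b) v (n b p (t p)) ≠ r z (ν b t)}
  have hpre : ∀ b ω, ∀ t : Fin (m + 1) → Fin l, ∑ p, ext (I b) (rs X (I b) ω) (n b p (t p)) =
      ∑ p, X (n b p (t p)) ω := fun b ω t =>
    Finset.sum_congr rfl (fun p _ => ext_rs X (I b) ω (hmI b p (t p)))
  have hp : ∀ b < B, ∀ z ∈ E, μ.real (rs X (I b) ⁻¹' G b z) ≤ 1 - 3 / 8 * ε * c₁ := by
    intro b hb z hz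
    have h1 : rs X (I b) ⁻¹' G b z =
        {ω | ∀ t : Fin (m + 1) → Fin l, ∑ p, X (n b p (t p)) ω ≠ r z (ν b t)} := by
      ext ω
      simp only [Set.mem_preimage, G, Set.mem_ofPred_eq, hpre]
    rw [h1]
    exact block_fail hX hi (n b) (fun p i p' i' h => (hn _ _ _ _ _ _ h).2) hM hc hC
      (fun p i a ha => hlo _ (hrange b hb p i).1 (hrange b hb p i).2 a ha)
      (fun p i a => hup _ (hrange b hb p i).1 (hrange b hb p i).2 a)
      (fun t => r z (ν b t)) (fun t => (hr z (ν b t) hz (hν b hb t)).1)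
      (fun t => (hr z (ν b t) hz (hν b hb t)).2.1) hc1 hε hεM hl
  have hp0 : 0 ≤ 1 - 3 / 8 * ε * c₁ :=
    le_trans measureReal_nonneg
      (hp 0 h0 (fun _ => 0) (fun g => by simp only [Nat.cast_zero]; positivity))
  have hexp : (1 - 3 / 8 * ε * c₁) ^ B ≤ Real.exp (-(3 / 8 * ε * c₁) * B) := by
    rw [mul_comm (-(3 / 8 * ε * c₁)) (B : ℝ), Real.exp_nat_mul]
    apply pow_le_pow_left₀ hp0
    have := Real.add_one_le_exp (-(3 / 8 * ε * c₁))
    linarith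
  refine le_trans (le_trans (measureReal_mono ?_ (measure_ne_top _ _))
    (blocks (μ := μ) hX hi O I hOI hII E G hp0 B hp)) hexp
  rintro ω ⟨h1, h2⟩
  refine ⟨fun g => h1 g ?_, ?_⟩
  · exact (Finset.mem_filter.1 g.2).2.pos
  · intro b hb t ht
    apply h2
    have hz : rs X O ω ∈ E := fun g => h1 g (Finset.mem_filter.1 g.2).2.pos
    obtain ⟨_, _, g, hg1, hg2, hg3⟩ := hr (rs X O ω) (ν b t) hz (hν b hb t)
    rw [hpre] at ht
    rw [← ht, Finset.sum_congr rfl (fun i _ => by rw [ext_rs X O ω (hg1 i)])] at hg3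
    refine ⟨Fin.append (fun p => n b p (t p)) g, ?_, ?_⟩
    · intro i
      refine Fin.addCases (fun i => ?_) (fun i => ?_) i
      · rw [Fin.append_left]
        have := (hrange b hb i (t i)).1
        omega
      · rw [Fin.append_right]
        exact hg2 i
    · rw [Fin.sum_univ_add]
      simp only [Fin.append_left, Fin.append_right]
      rw [← hg3, Finset.sum_add_distrib]
      simp only [ν]
      omega

end Pool.Agent.J4H38.SW
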