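import Pool.Agent.J4H38.SW.Main

/-!
# Few perturbed terms: the probabilistic core
-/

set_option autoImplicit false

open MeasureTheory ProbabilityTheory Filter

namespace Pool.Agent.J4H38.SW

variable {Ω : Type*} [MeasurableSpace Ω] {μ : Measure Ω}

/-- one block, with sets `R t` of `I` admissible values for the tuple `t`. -/
theorem block_fail2 [IsProbabilityMeasure μ] {X : ℕ → Ω → ℕ} (hX : ∀ n, Measurable (X n))
    (hi : iIndepFun X μ) {m l : ℕ} (n : Fin (m + 1) → Fin l → ℕ)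
    (hn : ∀ p i p' i', n p i = n p' i' → p = p' ∧ i = i') {M c C : ℝ} (hM : 0 < M) (hc : 0 < c)
    (hC : 0 < C)
    (hlo : ∀ p i (j : ℕ), (j : ℝ) ≤ c * M → c / M ≤ μ.real {ω | X (n p i) ω = j})
    (hup : ∀ p i (j : ℕ), μ.real {ω | X (n p i) ω = j} ≤ C / M)
    (R : (Fin (m + 1) → Fin l) → Finset ℕ) {I : ℕ} (hR : ∀ t, (R t).card = I) (hI : 1 ≤ I)
    (hr1 : ∀ t, ∀ r ∈ R t, c / 2 * M ≤ r) (hr2 : ∀ t, ∀ r ∈ R t, (r : ℝ) ≤ c * M)
    {ε c₁ : ℝ} (hc1 : c₁ = c * (c ^ 2 / (2 * (m + 1))) ^ m) (hε : ε = c₁ / (4 * C ^ 2))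
    (hεM : (I : ℝ) ≤ ε * M) (hl : ε * M ≤ I * (l : ℝ) ^ (m + 1)) :
    μ.real {ω | ∀ t : Fin (m + 1) → Fin l, ∑ p, X (n p (t p)) ω ∉ R t} ≤
      1 - 3 / 8 * ε * c₁ := by
  classical
  have hc1p : 0 < c₁ := by rw [hc1]; positivity
  have hεp : 0 < ε := by rw [hε]; positivity
  have hI' : (1 : ℝ) ≤ I := by exact_mod_cast hI
  have hI0 : (0 : ℝ) < I := by linarith
  have hεMI : 1 ≤ ε * M / I := by rwa [one_le_div hI0]
  have hcard : ⌊ε * M / I⌋₊ ≤ (Finset.univ : Finset (Fin (m + 1) → Fin l)).card := by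
    rw [Finset.card_univ, Fintype.card_fun, Fintype.card_fin, Fintype.card_fin]
    have h1 : ((⌊ε * M / I⌋₊ : ℕ) : ℝ) ≤ ((l ^ (m + 1) : ℕ) : ℝ) := by
      push_cast
      refine (Nat.floor_le (by positivity)).trans ?_
      rw [div_le_iff₀ hI0]
      linarith
    exact_mod_cast h1
  obtain ⟨T, _, hT⟩ := Finset.exists_subset_card_eq hcard
  set A : (Fin (m + 1) → Fin l) → Set Ω := fun t => ⋃ r ∈ R t, {ω | ∑ p, X (n p (t p)) ω = r}
    with hA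
  have hAm1 : ∀ (t : Fin (m + 1) → Fin l) (r : ℕ), MeasurableSet {ω | ∑ p, X (n p (t p)) ω = r} :=
    fun t r => (Finset.measurable_sum _ (fun p _ => hX _)) (measurableSet_singleton r)
  have hAm : ∀ t, MeasurableSet (A t) := fun t =>
    Finset.measurableSet_biUnion _ (fun r _ => hAm1 t r)
  have hlow : ∀ t, I * (c₁ / M) ≤ μ.real (A t) := by
    intro t
    have hdis : Set.PairwiseDisjoint (↑(R t)) (fun r : ℕ => {ω | ∑ p, X (n p (t p)) ω = r}) := by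
      intro r _ r' _ hrr
      rw [Function.onFun, Set.disjoint_left]
      intro ω h1 h2
      exact hrr (h1.symm.trans h2)
    rw [hA]
    simp only
    rw [measureReal_biUnion_finset hdis (fun r _ => hAm1 t r)]
    calc I * (c₁ / M) = ∑ _r ∈ R t, (c₁ / M) := by rw [Finset.sum_const, hR, nsmul_eq_mul]
      _ ≤ ∑ r ∈ R t, μ.real {ω | ∑ p, X (n p (t p)) ω = r} := by
          apply Finset.sum_le_sum
          intro r hr
          rw [hc1]
          exact event_lower hX hi (fun p => n p (t p)) (fun p p' h => (hn _ _ _ _ h).1) hM hc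
            (fun p j hj => hlo _ _ j hj) r (hr1 t r hr) (hr2 t r hr)
  have hpair : ∀ t t', t ≠ t' → μ.real (A t ∩ A t') ≤ (I * (C / M)) ^ 2 := by
    intro t t' htt
    have h1 : A t ∩ A t' ⊆ ⋃ q ∈ R t ×ˢ R t',
        ({ω | ∑ p, X (n p (t p)) ω = q.1} ∩ {ω | ∑ p, X (n p (t' p)) ω = q.2}) := by
      rintro ω ⟨h2, h3⟩
      obtain ⟨r, hr, h4⟩ := Set.mem_iUnion₂.1 h2
      obtain ⟨r', hr', h5⟩ := Set.mem_iUnion₂.1 h3
      exact Set.mem_iUnion₂.2 ⟨(r, r'), Finset.mem_product.2 ⟨hr, hr'⟩, h4, h5⟩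
    calc μ.real (A t ∩ A t') ≤ μ.real (⋃ q ∈ R t ×ˢ R t',
          ({ω | ∑ p, X (n p (t p)) ω = q.1} ∩ {ω | ∑ p, X (n p (t' p)) ω = q.2})) :=
          measureReal_mono h1 (measure_ne_top _ _)
      _ ≤ ∑ q ∈ R t ×ˢ R t', μ.real
          ({ω | ∑ p, X (n p (t p)) ω = q.1} ∩ {ω | ∑ p, X (n p (t' p)) ω = q.2}) :=
          measureReal_biUnion_finset_le _ _
      _ ≤ ∑ _q ∈ R t ×ˢ R t', (C / M) ^ 2 :=
          Finset.sum_le_sum (fun q _ => pair_upper hX hi n hn (by positivity) hup q.1 q.2 t t' htt)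
      _ = (I * (C / M)) ^ 2 := by
          rw [Finset.sum_const, Finset.card_product, hR, hR, nsmul_eq_mul]
          push_cast
          ring
  have h1 := bonferroni (μ := μ) A hAm (I * (c₁ / M)) ((I * (C / M)) ^ 2) hlow (by positivity)
    hpair T
  have hsub : {ω | ∀ t : Fin (m + 1) → Fin l, ∑ p, X (n p (t p)) ω ∉ R t} ⊆ (⋃ t ∈ T, A t)ᶜ := by
    intro ω hω hc
    obtain ⟨t, _, ht⟩ := Set.mem_iUnion₂.1 hc
    obtain ⟨r, hr, hr'⟩ := Set.mem_iUnion₂.1 ht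
    have hr'' : ∑ p, X (n p (t p)) ω = r := hr'
    exact hω t (hr'' ▸ hr)
  have hcm : μ.real (⋃ t ∈ T, A t)ᶜ = 1 - μ.real (⋃ t ∈ T, A t) :=
    probReal_compl_eq_one_sub (Finset.measurableSet_biUnion _ (fun t _ => hAm t))
  have h2 : μ.real {ω | ∀ t : Fin (m + 1) → Fin l, ∑ p, X (n p (t p)) ω ∉ R t} ≤
      1 - μ.real (⋃ t ∈ T, A t) := by
    rw [← hcm]
    exact measureReal_mono hsub (measure_ne_top _ _)
  set τ : ℝ := (T.card : ℝ) with hτ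
  have hτ1 : τ * I ≤ ε * M := by
    rw [← le_div_iff₀ hI0, hτ, hT]
    exact Nat.floor_le (by positivity)
  have hτ2 : ε * M / 2 ≤ τ * I := by
    have h3 := Nat.lt_floor_add_one (ε * M / I)
    have h4 : (1 : ℝ) ≤ (⌊ε * M / I⌋₊ : ℝ) := by
      exact_mod_cast (Nat.one_le_floor_iff _).2 hεMI
    have h5 : ε * M / I / 2 ≤ τ := by
      rw [hτ, hT]
      linarith
    calc ε * M / 2 = (ε * M / I / 2) * I := by field_simp
      _ ≤ τ * I := by gcongr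
  have h5 : 3 / 8 * ε * c₁ ≤ τ * (I * (c₁ / M)) - τ ^ 2 * (I * (C / M)) ^ 2 := by
    have e1 : τ * (I * (c₁ / M)) - τ ^ 2 * (I * (C / M)) ^ 2 =
        τ * I / M * (c₁ - τ * I / M * C ^ 2) := by
      field_simp
    have e2 : ε / 2 ≤ τ * I / M := by
      rw [le_div_iff₀ hM]
      linarith
    have e3 : τ * I / M ≤ ε := by
      rw [div_le_iff₀ hM]
      exact hτ1
    have e4 : ε * C ^ 2 = c₁ / 4 := by
      rw [hε]
      field_simp
    have e5 : τ * I / M * C ^ 2 ≤ c₁ / 4 := by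
      rw [← e4]
      gcongr
    rw [e1]
    have e6 : 3 / 4 * c₁ ≤ c₁ - τ * I / M * C ^ 2 := by linarith
    calc 3 / 8 * ε * c₁ = ε / 2 * (3 / 4 * c₁) := by ring
      _ ≤ τ * I / M * (c₁ - τ * I / M * C ^ 2) := by
          gcongr
  linarith

/-- pure and perturbed terms. -/
def Rep2 (k : ℕ) (x : ℕ → ℕ) (u v N : ℕ) : Prop :=
  ∃ (a : Fin u → ℕ) (n : Fin v → ℕ), (∀ i, 1 ≤ a i) ∧ (∀ i, 1 ≤ n i) ∧
    ∑ i, a i ^ k + ∑ i, (n i ^ k + x (n i)) = N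

/-- `I` sums of `j` pure powers below `ρ`. -/
theorem many {k j : ℕ} {K e : ℝ} (hK : 1 ≤ K)
    (hgr : ∀ L ρ : ℝ, 1 ≤ L → 0 ≤ ρ → ρ ≤ L → ∃ g : Fin j → ℕ, (∀ i, 1 ≤ g i) ∧
        -(j : ℝ) ≤ ρ - ((∑ i, (g i ^ k) : ℕ) : ℝ) ∧ ρ - ((∑ i, (g i ^ k) : ℕ) : ℝ) ≤ K * L ^ e)
    {L ρ : ℝ} (hL : 1 ≤ L) (hρ : ρ ≤ L) {I : ℕ} (hI : I * (K * L ^ e + j + 1) ≤ ρ) :
    ∃ S : Finset ℕ, S.card = I ∧ ∀ s ∈ S, ρ - I * (K * L ^ e + j + 1) ≤ s ∧ (s : ℝ) ≤ ρ + j ∧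
      ∃ a : Fin j → ℕ, (∀ i, 1 ≤ a i) ∧ ∑ i, a i ^ k = s := by
  classical
  set D : ℝ := K * L ^ e + j + 1 with hD
  have hLe : 0 ≤ L ^ e := by positivity
  have hKL : 0 ≤ K * L ^ e := by positivity
  have hD0 : 0 < D := by positivity
  have h1 : ∀ i : Fin I, ∃ g : Fin j → ℕ, (∀ i, 1 ≤ g i) ∧
        -(j : ℝ) ≤ (ρ - i * D) - ((∑ i, (g i ^ k) : ℕ) : ℝ) ∧
        (ρ - i * D) - ((∑ i, (g i ^ k) : ℕ) : ℝ) ≤ K * L ^ e := by
    intro i
    have h2 : ((i : ℕ) : ℝ) ≤ I := by exact_mod_cast i.2.le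
    have h3 : (i : ℕ) * D ≤ I * D := by gcongr
    have h4 : 0 ≤ (i : ℕ) * D := by positivity
    exact hgr L _ hL (by linarith) (by linarith)
  choose g hg1 hg2 hg3 using h1
  let s : Fin I → ℕ := fun i => ∑ a, g i a ^ k
  have hs : ∀ i i' : Fin I, i < i' → s i' < s i := by
    intro i i' hii
    have h2 : ((i : ℕ) : ℝ) + 1 ≤ (i' : ℕ) := by exact_mod_cast hii
    have h3 : (((i : ℕ) : ℝ) + 1) * D ≤ (i' : ℕ) * D := by gcongr
    have h4 := hg2 i'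
    have h5 := hg3 i
    have h6 : (s i' : ℝ) < s i := by
      simp only [s]
      linarith
    exact_mod_cast h6
  have hinj : Function.Injective s := by
    intro i i' h
    by_contra hne
    rcases lt_or_gt_of_ne hne with h2 | h2
    · have := hs _ _ h2
      omega
    · have := hs _ _ h2
      omega
  refine ⟨Finset.univ.image s, ?_, ?_⟩
  · rw [Finset.card_image_of_injective _ hinj, Finset.card_univ, Fintype.card_fin]
  · intro x hx
    obtain ⟨i, _, rfl⟩ := Finset.mem_image.1 hx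
    have h2 : ((i : ℕ) : ℝ) + 1 ≤ I := by exact_mod_cast i.2
    have h3 : (((i : ℕ) : ℝ) + 1) * D ≤ I * D := by gcongr
    have h4 := hg2 i
    have h5 := hg3 i
    have h6 : 0 ≤ ((i : ℕ) : ℝ) * D := by positivity
    have h7 : (0 : ℝ) ≤ j := Nat.cast_nonneg _
    exact ⟨by simp only [s]; linarith, by simp only [s]; linarith, g i, hg1 i, rfl⟩

end Pool.Agent.J4H38.SW
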