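import Pool.Agent.J4H38.SW.Few

/-!
# Few perturbed terms: one `N`, asymptotics, Borel-Cantelli
-/

set_option autoImplicit false

open MeasureTheory ProbabilityTheory Filter

namespace Pool.Agent.J4H38.SW

variable {Ω : Type*} [MeasurableSpace Ω] {μ : Measure Ω}

/-- the core estimate for one `N`. -/
theorem core2 [IsProbabilityMeasure μ] {X : ℕ → Ω → ℕ} (hX : ∀ n, Measurable (X n))
    (hi : iIndepFun X μ) {k m j l Q B N I : ℕ} {c C K e : ℝ} (hc : 0 < c) (hC : 0 < C)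
    (hK : 1 ≤ K)
    (hgr : ∀ L ρ : ℝ, 1 ≤ L → 0 ≤ ρ → ρ ≤ L → ∃ g : Fin j → ℕ, (∀ i, 1 ≤ g i) ∧
        -(j : ℝ) ≤ ρ - ((∑ i, (g i ^ k) : ℕ) : ℝ) ∧ ρ - ((∑ i, (g i ^ k) : ℕ) : ℝ) ≤ K * L ^ e)
    (hQ : 1 ≤ Q) (hN : 1 ≤ N) (hBl : B * ((m + 1) * l) ≤ Q) {M : ℝ} (hM : 0 < M)
    (hlo : ∀ n : ℕ, 2 * Q ≤ n → n ≤ 4 * Q → ∀ i : ℕ, (i : ℝ) ≤ c * M →
      c / M ≤ μ.real {ω | X n ω = i})
    (hup : ∀ n : ℕ, 2 * Q ≤ n → n ≤ 4 * Q → ∀ i : ℕ, μ.real {ω | X n ω = i} ≤ C / M)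
    (hsum : (((m + 1) * (4 * Q) ^ k : ℕ) : ℝ) + c * M ≤ N) (hj : (j : ℝ) ≤ c / 8 * M)
    (hID : I * (K * (N : ℝ) ^ e + j + 1) ≤ c / 8 * M) (hI : 1 ≤ I) {ε c₁ : ℝ}
    (hc1 : c₁ = c * (c ^ 2 / (2 * (m + 1))) ^ m) (hε : ε = c₁ / (4 * C ^ 2))
    (hεM : (I : ℝ) ≤ ε * M) (hl : ε * M ≤ I * (l : ℝ) ^ (m + 1)) :
    μ.real {ω | ¬ Rep2 k (fun g => X g ω) j (m + 1) N} ≤ Real.exp (-(3 / 8 * ε * c₁) * B) := by
  classical
  rcases Nat.eq_zero_or_pos B with h0 | h0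
  · subst h0
    rw [Nat.cast_zero, mul_zero, Real.exp_zero]
    exact measureReal_le_one
  have hc1p : 0 < c₁ := by rw [hc1]; positivity
  have hεp : 0 < ε := by rw [hε]; positivity
  have hN' : (1 : ℝ) ≤ N := by exact_mod_cast hN
  have hcM : 0 < c * M := by positivity
  -- the blocks
  let n : ℕ → Fin (m + 1) → Fin l → ℕ := fun b p i => 2 * (Q + ((b * (m + 1) + p) * l + i))
  have hn : ∀ b b' p p' i i', n b p i = n b' p' i' → b = b' ∧ p = p' ∧ i = i' := by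
    intro b b' p p' i i' h
    have h1 : (b * (m + 1) + p) * l + i = (b' * (m + 1) + p') * l + (i' : ℕ) := by
      simp only [n] at h
      omega
    have hl0 : 0 < l := lt_of_le_of_lt (Nat.zero_le _) i.2
    have h2 : (b * (m + 1) + p) = (b' * (m + 1) + (p' : ℕ)) := by
      have e1 : ((b * (m + 1) + p) * l + i) / l = b * (m + 1) + p := by
        rw [mul_comm, Nat.mul_add_div hl0, Nat.div_eq_of_lt i.2, add_zero]
      have e2 : ((b' * (m + 1) + p') * l + (i' : ℕ)) / l = b' * (m + 1) + p' := by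
        rw [mul_comm, Nat.mul_add_div hl0, Nat.div_eq_of_lt i'.2, add_zero]
      rw [← e1, ← e2, h1]
    have h3 : (i : ℕ) = i' := by
      rw [h2] at h1
      omega
    have h4 : b = b' := by
      have e1 : (b * (m + 1) + p) / (m + 1) = b := by
        rw [mul_comm, Nat.mul_add_div (by omega), Nat.div_eq_of_lt p.2, add_zero]
      have e2 : (b' * (m + 1) + (p' : ℕ)) / (m + 1) = b' := by
        rw [mul_comm, Nat.mul_add_div (by omega), Nat.div_eq_of_lt p'.2, add_zero]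
      rw [← e1, ← e2, h2]
    have h5 : (p : ℕ) = p' := by
      rw [h4] at h2
      omega
    exact ⟨h4, Fin.ext h5, Fin.ext h3⟩
  have hrange : ∀ b < B, ∀ p i, 2 * Q ≤ n b p i ∧ n b p i ≤ 4 * Q := by
    intro b hb p i
    have h1 : (b * (m + 1) + p) * l + i < Q := by
      have hp := p.2
      have hi' := i.2
      calc (b * (m + 1) + p) * l + i < (b * (m + 1) + p) * l + l := by omega
        _ = (b * (m + 1) + (p + 1)) * l := by ring
        _ ≤ (b * (m + 1) + (m + 1)) * l := by gcongr; omega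
        _ = (b + 1) * ((m + 1) * l) := by ring
        _ ≤ B * ((m + 1) * l) := by gcongr; omega
        _ ≤ Q := hBl
    simp only [n]
    omega
  let Y : ℕ → Finset ℕ := fun b => Finset.univ.image (fun q : Fin (m + 1) × Fin l => n b q.1 q.2)
  have hmI : ∀ b p i, n b p i ∈ Y b := fun b p i =>
    Finset.mem_image.2 ⟨(p, i), Finset.mem_univ _, rfl⟩
  have hII : ∀ a b, a ≠ b → Disjoint (Y a) (Y b) := by
    intro a b hab
    rw [Finset.disjoint_left]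
    intro x hx hy
    obtain ⟨q, _, hq⟩ := Finset.mem_image.1 hx
    obtain ⟨q', _, hq'⟩ := Finset.mem_image.1 hy
    exact hab (hn _ _ _ _ _ _ (hq.trans hq'.symm)).1
  let ν : ℕ → (Fin (m + 1) → Fin l) → ℕ := fun b t => ∑ p, (n b p (t p)) ^ k
  have hν : ∀ b < B, ∀ t, (ν b t : ℝ) + c * M ≤ N := by
    intro b hb t
    have h1 : ν b t ≤ (m + 1) * (4 * Q) ^ k := by
      calc ν b t ≤ ∑ _p : Fin (m + 1), (4 * Q) ^ k :=
            Finset.sum_le_sum (fun p _ => Nat.pow_le_pow_left (hrange b hb p (t p)).2 k)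
        _ = (m + 1) * (4 * Q) ^ k := by simp
    have h2 : (ν b t : ℝ) ≤ (((m + 1) * (4 * Q) ^ k : ℕ) : ℝ) := by exact_mod_cast h1
    linarith
  -- the admissible values
  have hR : ∀ (b : ℕ) (t : Fin (m + 1) → Fin l), ∃ R : Finset ℕ, b < B → (R.card = I ∧
      ∀ r ∈ R, c / 2 * M ≤ r ∧ (r : ℝ) ≤ c * M ∧ ∃ a : Fin j → ℕ, (∀ i, 1 ≤ a i) ∧
        ∑ i, a i ^ k + ν b t + r = N) := by
    intro b t
    by_cases hb : b < B
    · have h1 := hν b hb t
      have h1' : (0 : ℝ) ≤ ν b t := Nat.cast_nonneg _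
      obtain ⟨S, hS1, hS2⟩ := many hK hgr hN' (ρ := N - ν b t - 5 / 8 * c * M) (by linarith)
        (I := I) (by linarith)
      have hS3 : ∀ s ∈ S, s + ν b t ≤ N := by
        intro s hs
        obtain ⟨_, h3, _⟩ := hS2 s hs
        have h4 : ((s + ν b t : ℕ) : ℝ) ≤ N := by
          push_cast
          linarith
        exact_mod_cast h4
      refine ⟨S.image (fun s => N - ν b t - s), fun _ => ⟨?_, ?_⟩⟩
      · rw [Finset.card_image_of_injOn, hS1]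
        intro s hs s' hs' h
        have h3 := hS3 s hs
        have h4 := hS3 s' hs'
        simp only at h
        omega
      · intro r hr
        obtain ⟨s, hs, hsr⟩ := Finset.mem_image.1 hr
        obtain ⟨h2, h3, a, ha1, ha2⟩ := hS2 s hs
        have h4 := hS3 s hs
        have h5 : s + ν b t + r = N := by omega
        have h6 : (s : ℝ) + ν b t + r = N := by exact_mod_cast h5
        exact ⟨by linarith, by linarith, a, ha1, by rw [ha2]; exact h5⟩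
    · exact ⟨∅, fun h => absurd h hb⟩
  choose R hR using hR
  let G : (b : ℕ) → ((∅ : Finset ℕ) → ℕ) → Set (Y b → ℕ) := fun b _ =>
    {v | ∀ t : Fin (m + 1) → Fin l, ∑ p, ext (Y b) v (n b p (t p)) ∉ R b t}
  have hpre : ∀ b ω, ∀ t : Fin (m + 1) → Fin l, ∑ p, ext (Y b) (rs X (Y b) ω) (n b p (t p)) =
      ∑ p, X (n b p (t p)) ω := fun b ω t =>
    Finset.sum_congr rfl (fun p _ => ext_rs X (Y b) ω (hmI b p (t p)))
  have hp : ∀ b < B, ∀ z ∈ (Set.univ : Set ((∅ : Finset ℕ) → ℕ)),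
      μ.real (rs X (Y b) ⁻¹' G b z) ≤ 1 - 3 / 8 * ε * c₁ := by
    intro b hb z _
    have h1 : rs X (Y b) ⁻¹' G b z =
        {ω | ∀ t : Fin (m + 1) → Fin l, ∑ p, X (n b p (t p)) ω ∉ R b t} := by
      ext ω
      simp only [Set.mem_preimage, G, Set.mem_ofPred_eq, hpre]
    rw [h1]
    exact block_fail2 hX hi (n b) (fun p i p' i' h => (hn _ _ _ _ _ _ h).2) hM hc hC
      (fun p i a ha => hlo _ (hrange b hb p i).1 (hrange b hb p i).2 a ha)
      (fun p i a => hup _ (hrange b hb p i).1 (hrange b hb p i).2 a)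
      (R b) (fun t => (hR b t hb).1) hI (fun t r hr => ((hR b t hb).2 r hr).1)
      (fun t r hr => ((hR b t hb).2 r hr).2.1) hc1 hε hεM hl
  have hp0 : 0 ≤ 1 - 3 / 8 * ε * c₁ :=
    le_trans measureReal_nonneg (hp 0 h0 (fun _ => 0) (Set.mem_univ _))
  have hexp : (1 - 3 / 8 * ε * c₁) ^ B ≤ Real.exp (-(3 / 8 * ε * c₁) * B) := by
    rw [mul_comm (-(3 / 8 * ε * c₁)) (B : ℝ), Real.exp_nat_mul]
    apply pow_le_pow_left₀ hp0
    have := Real.add_one_le_exp (-(3 / 8 * ε * c₁))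
    linarith
  refine le_trans (le_trans (measureReal_mono ?_ (measure_ne_top _ _))
    (blocks (μ := μ) hX hi ∅ Y (fun b => Finset.disjoint_empty_left _) hII Set.univ G hp0 B hp))
    hexp
  intro ω h2
  refine ⟨Set.mem_univ _, ?_⟩
  intro b hb t ht
  apply h2
  rw [hpre] at ht
  obtain ⟨_, _, a, ha1, ha2⟩ := (hR b t hb).2 _ ht
  refine ⟨a, fun p => n b p (t p), ha1, ?_, ?_⟩
  · intro i
    change 1 ≤ n b i (t i)
    have := (hrange b hb i (t i)).1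
    omega
  · rw [← ha2, Finset.sum_add_distrib]
    simp only [ν]
    omega

/-- all the inequalities between the parameters. -/
theorem params2 {k m j : ℕ} (hk : 2 ≤ k) {γ c K e : ℝ} (hγ : 0 < γ) (hγ1 : γ < 1) (hc : 0 < c)
    (hK : 1 ≤ K) (he0 : 0 < e) (he : e < γ) (hm : e * k < m + 1) {ε δ : ℝ} (hε : 0 < ε)
    (hδ : 0 < δ) :
    ∀ᶠ N : ℕ in atTop, ∃ Q B l I : ℕ, 1 ≤ Q ∧ B * ((m + 1) * l) ≤ Q ∧
      (((m + 1) * (4 * Q) ^ k : ℕ) : ℝ) + c * ((2 * Q : ℕ) : ℝ) ^ (γ * k) ≤ N ∧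
      (j : ℝ) ≤ c / 8 * ((2 * Q : ℕ) : ℝ) ^ (γ * k) ∧
      I * (K * (N : ℝ) ^ e + j + 1) ≤ c / 8 * ((2 * Q : ℕ) : ℝ) ^ (γ * k) ∧ 1 ≤ I ∧
      (I : ℝ) ≤ ε * ((2 * Q : ℕ) : ℝ) ^ (γ * k) ∧
      ε * ((2 * Q : ℕ) : ℝ) ^ (γ * k) ≤ I * (l : ℝ) ^ (m + 1) ∧
      Real.exp (-δ * B) ≤ 1 / (N : ℝ) ^ 2 := by
  have hk0 : (0 : ℝ) < k := by positivity
  have hk1 : (1 : ℝ) ≤ k := by exact_mod_cast (by omega : 1 ≤ k)
  have hm0 : (0 : ℝ) < m + 1 := by positivity
  set A : ℝ := 16 * (m + 1) with hA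
  have hA0 : 0 < A := by positivity
  have hA16 : 16 ≤ A := by
    rw [hA]
    have : (0 : ℝ) ≤ m := Nat.cast_nonneg _
    linarith
  set β : ℝ := (1 / k - e / (m + 1)) / 2 with hβ
  have hgk : e / (m + 1) < 1 / k := by
    rw [div_lt_div_iff₀ hm0 hk0]
    linarith
  have hβ0 : 0 < β := by rw [hβ]; linarith
  have hβk : 0 < 1 / k - β := by
    have : 0 < e / (m + 1) := by positivity
    rw [hβ]
    linarith
  have hexp : e < (1 / k - β) * (m + 1 : ℕ) := by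
    have e1 : (1 / k - β) * ((m + 1 : ℕ) : ℝ) = ((m + 1) / k + e) / 2 := by
      rw [hβ]
      push_cast
      field_simp
      ring
    rw [e1]
    have : e < (m + 1) / k := by
      rw [lt_div_iff₀ hk0]
      exact hm
    linarith
  set κ : ℝ := (1 / A) ^ (γ * k) with hκ
  have hκ0 : 0 < κ := by positivity
  set κ₂ : ℝ := 1 / (4 * A * (m + 1)) with hκ₂
  have hκ₂0 : 0 < κ₂ := by positivity
  have hkinv : (0 : ℝ) < 1 / k := by positivity
  filter_upwards [eventually_ge_atTop 1, ev0 hkinv A one_pos, ev0 hβk 1 hκ₂0,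
    ev1 hexp (16 * ε * (K + j + 1)) (show 0 < c * κ₂ ^ (m + 1) by positivity),
    ev0 he0 (c / (8 * ε)) one_pos,
    ev0 hγ j (show 0 < c / 8 * κ by positivity),
    ev1 he (8 * (K + j + 1)) (show 0 < c * κ by positivity),
    ev1 hγ1 c (show (0 : ℝ) < 1 / 4 by norm_num),
    ev0 hβ0 1 one_pos, evlog (show 0 < δ / 2 by positivity) hβ0]
    with N h1 h2 h3 h4 h5 h6 h7 h9 h11 h12
  have hN : (1 : ℝ) ≤ N := by exact_mod_cast h1
  have hN0 : (0 : ℝ) < N := lt_of_lt_of_le one_pos hN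
  set x : ℝ := (N : ℝ) ^ (1 / (k : ℝ)) with hx
  have hx0 : 0 < x := by positivity
  have hxk : x ^ k = N := by
    rw [hx, ← Real.rpow_natCast, ← Real.rpow_mul hN0.le]
    rw [one_div, inv_mul_cancel₀ hk0.ne', Real.rpow_one]
  have hxg : x ^ (γ * k) = (N : ℝ) ^ γ := by
    rw [hx, ← Real.rpow_mul hN0.le]
    congr 1
    field_simp
  have hxA : 1 ≤ x / A := by
    rw [one_le_div hA0]
    linarith
  set Q : ℕ := ⌊x / A⌋₊ with hQ
  have hQ1 : 1 ≤ Q := (Nat.one_le_floor_iff _).2 hxA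
  have hQ1' : (1 : ℝ) ≤ Q := by exact_mod_cast hQ1
  have hQle : (Q : ℝ) ≤ x / A := Nat.floor_le (by positivity)
  have hQge : x / A ≤ 2 * Q := by
    have := Nat.lt_floor_add_one (x / A)
    linarith
  have hQx : (2 * Q : ℝ) ≤ x := by
    have : x / A ≤ x / 16 := by gcongr
    linarith
  set M : ℝ := ((2 * Q : ℕ) : ℝ) ^ (γ * k) with hM
  have hM1 : M ≤ (N : ℝ) ^ γ := by
    rw [hM, ← hxg]
    push_cast
    gcongr
  have hM2 : κ * (N : ℝ) ^ γ ≤ M := by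
    rw [hM, ← hxg, hκ, ← Real.mul_rpow (by positivity) (by positivity)]
    push_cast
    apply Real.rpow_le_rpow (by positivity) _ (by positivity)
    calc 1 / A * x = x / A := by ring
      _ ≤ 2 * Q := hQge
  have hM0 : 0 < M := lt_of_lt_of_le (by positivity) hM2
  set B : ℕ := ⌊(N : ℝ) ^ β⌋₊ with hB
  have hNβ : 1 ≤ (N : ℝ) ^ β := by linarith
  have hB1 : 1 ≤ B := (Nat.one_le_floor_iff _).2 hNβ
  have hB1' : (1 : ℝ) ≤ B := by exact_mod_cast hB1
  have hBle : (B : ℝ) ≤ (N : ℝ) ^ β := Nat.floor_le (by positivity)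
  have hBge : (N : ℝ) ^ β ≤ 2 * B := by
    have := Nat.lt_floor_add_one ((N : ℝ) ^ β)
    linarith
  set l : ℕ := Q / (B * (m + 1)) with hl
  have hBm : 0 < B * (m + 1) := by positivity
  have hl1 : κ₂ * (N : ℝ) ^ (1 / k - β) ≤ l := by
    have e1 : Q < (l + 1) * (B * (m + 1)) := by
      rw [hl]
      exact (Nat.div_lt_iff_lt_mul hBm).1 (Nat.lt_succ_self _)
    have e2 : (Q : ℝ) < (l + 1) * (B * (m + 1)) := by exact_mod_cast e1
    have e3 : x = (N : ℝ) ^ (1 / k - β) * (N : ℝ) ^ β := by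
      rw [hx, ← Real.rpow_add hN0]
      congr 1
      ring
    have e4 : x / A ≤ 2 * ((l + 1) * ((N : ℝ) ^ β * (m + 1))) := by
      calc x / A ≤ 2 * Q := hQge
        _ ≤ 2 * ((l + 1) * (B * (m + 1))) := by linarith
        _ ≤ _ := by gcongr
    have e5 : x ≤ (2 * A * (m + 1) * (l + 1)) * (N : ℝ) ^ β := by
      rw [div_le_iff₀ hA0] at e4
      linarith
    rw [e3] at e5
    have e6 : (N : ℝ) ^ (1 / k - β) ≤ 2 * A * (m + 1) * (l + 1) :=
      le_of_mul_le_mul_right e5 (by positivity)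
    have e7 : 2 * (κ₂ * (N : ℝ) ^ (1 / k - β)) ≤ l + 1 := by
      rw [hκ₂]
      calc 2 * (1 / (4 * A * (m + 1)) * (N : ℝ) ^ (1 / k - β)) ≤
          2 * (1 / (4 * A * (m + 1)) * (2 * A * (m + 1) * (l + 1))) := by gcongr
        _ = l + 1 := by
          field_simp
          ring
    linarith
  set D : ℝ := K * (N : ℝ) ^ e + j + 1 with hD
  have hNe : 1 ≤ (N : ℝ) ^ e := Real.one_le_rpow hN he0.le
  have hKN : (N : ℝ) ^ e ≤ K * (N : ℝ) ^ e := by
    calc (N : ℝ) ^ e = 1 * (N : ℝ) ^ e := (one_mul _).symm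
      _ ≤ K * (N : ℝ) ^ e := by gcongr
  have hj0 : (0 : ℝ) ≤ j := Nat.cast_nonneg _
  have hD1 : (N : ℝ) ^ e ≤ D := by rw [hD]; linarith
  have hD0 : 0 < D := by linarith
  have hD2 : D ≤ (K + j + 1) * (N : ℝ) ^ e := by
    have e1 : (j + 1 : ℝ) * 1 ≤ (j + 1) * (N : ℝ) ^ e := by gcongr
    rw [hD]
    linarith
  have hcD : 8 * D ≤ c * M := by
    calc 8 * D ≤ 8 * ((K + j + 1) * (N : ℝ) ^ e) := by gcongr
      _ = 8 * (K + j + 1) * (N : ℝ) ^ e := by ring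
      _ ≤ c * κ * (N : ℝ) ^ γ := h7
      _ = c * (κ * (N : ℝ) ^ γ) := by ring
      _ ≤ c * M := by gcongr
  have hI1 : 1 ≤ c * M / (8 * D) := by rwa [one_le_div (by positivity)]
  set I : ℕ := ⌊c * M / (8 * D)⌋₊ with hI
  have hIge1 : 1 ≤ I := (Nat.one_le_floor_iff _).2 hI1
  have hIge1' : (1 : ℝ) ≤ I := by exact_mod_cast hIge1
  have hIle : (I : ℝ) ≤ c * M / (8 * D) := Nat.floor_le (by positivity)
  have hIge : c * M / (8 * D) ≤ 2 * I := by
    have := Nat.lt_floor_add_one (c * M / (8 * D))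
    linarith
  refine ⟨Q, B, l, I, hQ1, ?_, ?_, ?_, ?_, hIge1, ?_, ?_, ?_⟩
  · rw [← mul_assoc]
    exact Nat.mul_div_le _ _
  · have e1 : ((4 * Q : ℝ)) ^ k ≤ 4 / A * N := by
      calc (4 * Q : ℝ) ^ k ≤ (4 / A * x) ^ k := by
            apply pow_le_pow_left₀ (by positivity)
            calc (4 * Q : ℝ) ≤ 4 * (x / A) := by gcongr
              _ = 4 / A * x := by ring
        _ = (4 / A) ^ k * N := by rw [mul_pow, hxk]
        _ ≤ 4 / A * N := by
            gcongr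
            apply pow_le_of_le_one (by positivity) _ (by omega)
            rw [div_le_one hA0]
            linarith
    have e2 : (m + 1 : ℝ) * (4 * Q) ^ k ≤ N / 4 := by
      calc (m + 1 : ℝ) * (4 * Q) ^ k ≤ (m + 1) * (4 / A * N) := by gcongr
        _ = N / 4 := by
          rw [hA]
          field_simp
          ring
    have e4 : c * M ≤ c * (N : ℝ) ^ γ := by gcongr
    rw [Real.rpow_one] at h9
    have e5 : (((m + 1) * (4 * Q) ^ k : ℕ) : ℝ) ≤ N / 4 := by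
      push_cast
      exact e2
    linarith
  · calc (j : ℝ) ≤ c / 8 * κ * (N : ℝ) ^ γ := h6
      _ = c / 8 * (κ * (N : ℝ) ^ γ) := by ring
      _ ≤ _ := by gcongr
  · calc (I : ℝ) * D ≤ c * M / (8 * D) * D := by gcongr
      _ = c / 8 * M := by field_simp
  · calc (I : ℝ) ≤ c * M / (8 * D) := hIle
      _ ≤ ε * M := by
        rw [div_le_iff₀ (by positivity)]
        have e1 : c / (8 * ε) ≤ D := by linarith
        rw [div_le_iff₀ (by positivity)] at e1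
        calc c * M ≤ (D * (8 * ε)) * M := by gcongr
          _ = ε * M * (8 * D) := by ring
  · have e1 : κ₂ ^ (m + 1) * (N : ℝ) ^ ((1 / k - β) * (m + 1 : ℕ)) ≤ (l : ℝ) ^ (m + 1) := by
      calc κ₂ ^ (m + 1) * (N : ℝ) ^ ((1 / k - β) * (m + 1 : ℕ))
          = (κ₂ * (N : ℝ) ^ (1 / k - β)) ^ (m + 1) := by
            rw [mul_pow, Real.rpow_mul hN0.le, Real.rpow_natCast]
        _ ≤ _ := by gcongr
    have e2 : 16 * ε * D ≤ c * (l : ℝ) ^ (m + 1) := by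
      calc 16 * ε * D ≤ 16 * ε * ((K + j + 1) * (N : ℝ) ^ e) := by gcongr
        _ = 16 * ε * (K + j + 1) * (N : ℝ) ^ e := by ring
        _ ≤ c * κ₂ ^ (m + 1) * (N : ℝ) ^ ((1 / k - β) * (m + 1 : ℕ)) := h4
        _ = c * (κ₂ ^ (m + 1) * (N : ℝ) ^ ((1 / k - β) * (m + 1 : ℕ))) := by ring
        _ ≤ _ := by gcongr
    have e3 : c * M / (8 * D) / 2 ≤ I := by linarith
    calc ε * M = (16 * ε * D) * (M / (16 * D)) := by field_simp
      _ ≤ (c * (l : ℝ) ^ (m + 1)) * (M / (16 * D)) := by gcongr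
      _ = (c * M / (8 * D) / 2) * (l : ℝ) ^ (m + 1) := by
          field_simp
          ring
      _ ≤ I * (l : ℝ) ^ (m + 1) := by gcongr
  · have e0 : 2 * Real.log N ≤ δ * B := by
      calc 2 * Real.log N ≤ δ / 2 * (N : ℝ) ^ β := h12
        _ ≤ δ / 2 * (2 * B) := by gcongr
        _ = δ * B := by ring
    have e1 : -δ * B ≤ -(2 * Real.log N) := by linarith
    calc Real.exp (-δ * B) ≤ Real.exp (-(2 * Real.log N)) := Real.exp_le_exp.2 e1
      _ = 1 / (N : ℝ) ^ 2 := by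
          rw [Real.exp_neg, mul_comm, Real.exp_mul, Real.exp_log hN0]
          norm_num

/-- fixed numbers of terms. -/
theorem few_fixed [IsProbabilityMeasure μ] {X : ℕ → Ω → ℕ} (hX : ∀ n, Measurable (X n))
    (hi : iIndepFun X μ) {k : ℕ} (hk : 2 ≤ k) {γ c C : ℝ} (hγ : 0 < γ) (hγ1 : γ < 1) (hc : 0 < c)
    (hC : 0 < C)
    (hup : ∀ n : ℕ, 1 ≤ n → ∀ j : ℕ, μ.real {ω | X n ω = j} ≤ C / (n : ℝ) ^ (γ * k))
    (hlo : ∀ n : ℕ, 1 ≤ n → ∀ j : ℕ, (j : ℝ) ≤ c * (n : ℝ) ^ (γ * k) →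
      c / (n : ℝ) ^ (γ * k) ≤ μ.real {ω | X n ω = j})
    {j v : ℕ} (h1 : (1 - 1 / (k : ℝ)) ^ j < γ) (h2 : (1 - 1 / (k : ℝ)) ^ j < v / k) :
    ∀ᵐ ω ∂μ, ∀ᶠ N : ℕ in atTop, Rep2 k (fun g => X g ω) j v N := by
  have hk0 : (0 : ℝ) < k := by positivity
  have hk2 : (2 : ℝ) ≤ k := by exact_mod_cast hk
  set θ : ℝ := 1 - 1 / (k : ℝ) with hθ
  have hθ0 : 0 < θ := by
    rw [hθ, sub_pos, div_lt_one hk0]
    linarith
  have hθ1 : θ < 1 := by
    rw [hθ]
    have : 0 < 1 / (k : ℝ) := by positivity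
    linarith
  have hej : 0 < θ ^ j := by positivity
  have hv : 1 ≤ v := by
    rcases Nat.eq_zero_or_pos v with h0 | h0
    · subst h0
      simp only [Nat.cast_zero, zero_div] at h2
      linarith
    · exact h0
  obtain ⟨m, rfl⟩ : ∃ m, v = m + 1 := ⟨v - 1, by omega⟩
  obtain ⟨K, hK, hgr0⟩ := greedy hk hθ0 le_rfl le_rfl hθ1 le_rfl (C := 0) j
  have hgr : ∀ L ρ : ℝ, 1 ≤ L → 0 ≤ ρ → ρ ≤ L → ∃ g : Fin j → ℕ, (∀ i, 1 ≤ g i) ∧
        -(j : ℝ) ≤ ρ - ((∑ i, (g i ^ k) : ℕ) : ℝ) ∧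
        ρ - ((∑ i, (g i ^ k) : ℕ) : ℝ) ≤ K * L ^ (θ ^ j) := by
    intro L ρ hL h0 hρ
    obtain ⟨g, hg1, _, hg3, hg4⟩ := hgr0 (fun _ => 0) (fun g _ => by simp) L ρ hL h0 hρ
    simp only [add_zero] at hg3 hg4
    exact ⟨g, fun i => (hg1 i).pos, by linarith, hg4⟩
  set c' : ℝ := c / 2 ^ (γ * k) with hc'
  have h2g : (1 : ℝ) ≤ 2 ^ (γ * (k : ℝ)) := Real.one_le_rpow (by norm_num) (by positivity)
  have hc'0 : 0 < c' := by positivity
  have hc'c : c' ≤ c := div_le_self hc.le h2g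
  set c₁ : ℝ := c' * (c' ^ 2 / (2 * (m + 1))) ^ m with hc₁
  have hc₁0 : 0 < c₁ := by positivity
  set ε : ℝ := c₁ / (4 * C ^ 2) with hε
  have hε0 : 0 < ε := by positivity
  have hem : θ ^ j * k < m + 1 := by
    rw [lt_div_iff₀ hk0] at h2
    push_cast at h2
    exact h2
  have hpar := params2 (m := m) (j := j) (K := K) hk hγ hγ1 hc'0 hK hej h1 hem hε0
    (show 0 < 3 / 8 * ε * c₁ by positivity)
  set F : ℕ → Set Ω := fun N => {ω | ¬ Rep2 k (fun g => X g ω) j (m + 1) N} with hF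
  have hFb : ∀ᶠ N : ℕ in atTop, μ.real (F N) ≤ 1 / (N : ℝ) ^ 2 := by
    filter_upwards [hpar, eventually_ge_atTop 1] with N hN hN1
    obtain ⟨Q, B, l, I, hQ, hBl, hsum, hjj, hID, hI, he1, he2, hB⟩ := hN
    have hQ' : (1 : ℝ) ≤ Q := by exact_mod_cast hQ
    have hM0 : 0 < ((2 * Q : ℕ) : ℝ) ^ (γ * k) := by
      apply Real.rpow_pos_of_pos
      push_cast
      positivity
    have hnM : ∀ n : ℕ, 2 * Q ≤ n → ((2 * Q : ℕ) : ℝ) ^ (γ * k) ≤ (n : ℝ) ^ (γ * k) := by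
      intro n hn
      exact Real.rpow_le_rpow (by positivity) (by exact_mod_cast hn) (by positivity)
    have hnM2 : ∀ n : ℕ, n ≤ 4 * Q →
        (n : ℝ) ^ (γ * k) ≤ 2 ^ (γ * k) * ((2 * Q : ℕ) : ℝ) ^ (γ * k) := by
      intro n hn
      rw [← Real.mul_rpow (by norm_num) (by positivity)]
      apply Real.rpow_le_rpow (by positivity) _ (by positivity)
      have : (n : ℝ) ≤ ((4 * Q : ℕ) : ℝ) := by exact_mod_cast hn
      push_cast at this ⊢
      linarith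
    refine le_trans (core2 hX hi hc'0 hC hK hgr hQ hN1 hBl hM0 ?_ ?_ hsum hjj hID hI hc₁ hε
      he1 he2) hB
    · intro n hn1 hn2 i hi'
      have hn0 : 1 ≤ n := by omega
      have e1 := hnM n hn1
      have e2 := hnM2 n hn2
      have hn0' : (0 : ℝ) < (n : ℝ) ^ (γ * k) := lt_of_lt_of_le hM0 e1
      refine le_trans ?_ (hlo n hn0 i (hi'.trans ?_))
      · rw [hc', div_div]
        exact div_le_div_of_nonneg_left hc.le hn0' e2
      · exact mul_le_mul hc'c e1 hM0.le hc.le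
    · intro n hn1 _ i
      have hn0 : 1 ≤ n := by omega
      exact (hup n hn0 i).trans (div_le_div_of_nonneg_left hC.le hM0 (hnM n hn1))
  obtain ⟨N₀, hN₀⟩ := eventually_atTop.1 hFb
  have hsumm : Summable (fun N : ℕ => 1 / (((N + N₀ : ℕ)) : ℝ) ^ 2) := by
    have h4 := Real.summable_one_div_nat_pow.2 (show 1 < 2 by norm_num)
    exact (summable_nat_add_iff N₀).2 h4
  have hfin : ∑' N, μ (F (N + N₀)) ≠ ⊤ := by
    have h4 : ∀ N, μ (F (N + N₀)) ≤ ENNReal.ofReal (1 / (((N + N₀ : ℕ)) : ℝ) ^ 2) := by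
      intro N
      have h5 := hN₀ (N + N₀) (by omega)
      rw [← ENNReal.toReal_le_toReal (measure_ne_top _ _) (by finiteness),
        ENNReal.toReal_ofReal (by positivity)]
      exact h5
    refine ne_top_of_le_ne_top ?_ (ENNReal.tsum_le_tsum h4)
    rw [← ENNReal.ofReal_tsum_of_nonneg (fun _ => by positivity) hsumm]
    exact ENNReal.ofReal_ne_top
  have hbc := ae_eventually_notMem hfin
  filter_upwards [hbc] with ω hω2
  rw [eventually_atTop] at hω2 ⊢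
  obtain ⟨N₁, hN₁⟩ := hω2
  refine ⟨N₁ + N₀, fun N hN => ?_⟩
  have h4 := hN₁ (N - N₀) (by omega)
  rw [Nat.sub_add_cancel (by omega)] at h4
  by_contra hcon
  exact h4 hcon

end Pool.Agent.J4H38.SW
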