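import Pool.Agent.J4H38.SW.Block

/-!
# Smoothed Waring: asymptotics and the Borel-Cantelli step
-/

set_option autoImplicit false

open MeasureTheory ProbabilityTheory Filter

namespace Pool.Agent.J4H38.SW

theorem ev1 {a b : ℝ} (hab : a < b) (K : ℝ) {κ : ℝ} (hκ : 0 < κ) :
    ∀ᶠ N : ℕ in atTop, K * (N : ℝ) ^ a ≤ κ * (N : ℝ) ^ b := by
  have h1 : Tendsto (fun N : ℕ => (N : ℝ) ^ (b - a)) atTop atTop :=
    (tendsto_rpow_atTop (by linarith)).comp tendsto_natCast_atTop_atTop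
  filter_upwards [h1.eventually_ge_atTop (K / κ), eventually_ge_atTop 1] with N h2 h3
  have hN : (0 : ℝ) < N := by exact_mod_cast h3
  have h4 : (N : ℝ) ^ b = (N : ℝ) ^ (b - a) * (N : ℝ) ^ a := by
    rw [← Real.rpow_add hN]
    congr 1
    ring
  rw [h4, ← mul_assoc]
  gcongr
  rw [div_le_iff₀ hκ] at h2
  linarith

theorem ev0 {b : ℝ} (hb : 0 < b) (K : ℝ) {κ : ℝ} (hκ : 0 < κ) :
    ∀ᶠ N : ℕ in atTop, K ≤ κ * (N : ℝ) ^ b := by
  filter_upwards [ev1 hb K hκ] with N h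
  simpa using h

theorem evlog {δ β : ℝ} (hδ : 0 < δ) (hβ : 0 < β) :
    ∀ᶠ N : ℕ in atTop, 2 * Real.log N ≤ δ * (N : ℝ) ^ β := by
  have h1 := (isLittleO_log_rpow_atTop hβ).bound (show (0 : ℝ) < δ / 2 by positivity)
  filter_upwards [tendsto_natCast_atTop_atTop.eventually h1, eventually_ge_atTop 1] with N h2 h3
  have hN : (1 : ℝ) ≤ N := by exact_mod_cast h3
  rw [Real.norm_of_nonneg (Real.log_nonneg hN), Real.norm_of_nonneg (by positivity)] at h2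
  linarith

/-- all the inequalities between the parameters. -/
theorem params {k m j : ℕ} (hk : 2 ≤ k) {γ c C K e : ℝ} (hγ : 0 < γ) (hγ1 : γ < 1) (hc : 0 < c)
    (hm : γ * k < m + 1) (he : e < γ) {ε δ : ℝ} (hε : 0 < ε) (hδ : 0 < δ) :
    ∀ᶠ N : ℕ in atTop, ∃ Q B l : ℕ, 1 ≤ Q ∧ B * ((m + 1) * l) ≤ Q ∧
      (m + 1) * (4 * Q) ^ k + ⌈3 / 4 * c * ((2 * Q : ℕ) : ℝ) ^ (γ * k)⌉₊ ≤ N ∧
      j * (1 + C) ≤ c / 4 * ((2 * Q : ℕ) : ℝ) ^ (γ * k) ∧
      1 + K * (N : ℝ) ^ e ≤ c / 4 * ((2 * Q : ℕ) : ℝ) ^ (γ * k) ∧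
      1 ≤ ε * ((2 * Q : ℕ) : ℝ) ^ (γ * k) ∧
      ε * ((2 * Q : ℕ) : ℝ) ^ (γ * k) ≤ (l : ℝ) ^ (m + 1) ∧
      Real.exp (-δ * B) ≤ 1 / (N : ℝ) ^ 2 := by
  have hk0 : (0 : ℝ) < k := by positivity
  have hk1 : (1 : ℝ) ≤ k := by exact_mod_cast (by omega : 1 ≤ k)
  have hm0 : (0 : ℝ) < m + 1 := by positivity
  set A : ℝ := 16 * (m + 1) with hA
  have hA0 : 0 < A := by positivity
  have hA16 : 16 ≤ A := by
    rw [hA]
    have : (0 : ℝ) ≤ m := Nat.cast_nonneg _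
    linarith
  set β : ℝ := (1 / k - γ / (m + 1)) / 2 with hβ
  have hgk : γ / (m + 1) < 1 / k := by
    rw [div_lt_div_iff₀ hm0 hk0]
    linarith
  have hβ0 : 0 < β := by rw [hβ]; linarith
  have hβk : 0 < 1 / k - β := by
    have : 0 < γ / (m + 1) := by positivity
    rw [hβ]
    linarith
  have hexp : γ < (1 / k - β) * (m + 1 : ℕ) := by
    have e1 : (1 / k - β) * ((m + 1 : ℕ) : ℝ) = ((m + 1) / k + γ) / 2 := by
      rw [hβ]
      push_cast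
      field_simp
      ring
    rw [e1]
    have : γ < (m + 1) / k := by
      rw [lt_div_iff₀ hk0]
      exact hm
    linarith
  set κ : ℝ := (1 / A) ^ (γ * k) with hκ
  have hκ0 : 0 < κ := by positivity
  set κ₂ : ℝ := 1 / (4 * A * (m + 1)) with hκ₂
  have hκ₂0 : 0 < κ₂ := by positivity
  have hkinv : (0 : ℝ) < 1 / k := by positivity
  filter_upwards [eventually_ge_atTop 1, ev0 hkinv A one_pos, ev0 hβk 1 hκ₂0,
    ev1 hexp ε (show 0 < κ₂ ^ (m + 1) by positivity), ev0 hγ 1 (show 0 < ε * κ by positivity),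
    ev0 hγ (j * (1 + C)) (show 0 < c / 4 * κ by positivity),
    ev0 hγ 1 (show 0 < c / 8 * κ by positivity), ev1 he K (show 0 < c / 8 * κ by positivity),
    ev1 hγ1 (3 / 4 * c) (show (0 : ℝ) < 1 / 4 by norm_num), ev0 one_pos 1 (show (0 : ℝ) < 1 / 4 by norm_num),
    ev0 hβ0 1 one_pos, evlog (show 0 < δ / 2 by positivity) hβ0]
    with N h1 h2 h3 h4 h5 h6 h7 h8 h9 h10 h11 h12
  have hN : (1 : ℝ) ≤ N := by exact_mod_cast h1
  have hN0 : (0 : ℝ) < N := lt_of_lt_of_le one_pos hN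
  set x : ℝ := (N : ℝ) ^ (1 / (k : ℝ)) with hx
  have hx0 : 0 < x := by positivity
  have hxk : x ^ k = N := by
    rw [hx, ← Real.rpow_natCast, ← Real.rpow_mul hN0.le]
    rw [one_div, inv_mul_cancel₀ hk0.ne', Real.rpow_one]
  have hxg : x ^ (γ * k) = (N : ℝ) ^ γ := by
    rw [hx, ← Real.rpow_mul hN0.le]
    congr 1
    field_simp
  have hxA : 1 ≤ x / A := by
    rw [one_le_div hA0]
    linarith
  set Q : ℕ := ⌊x / A⌋₊ with hQ
  have hQ1 : 1 ≤ Q := (Nat.one_le_floor_iff _).2 hxA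
  have hQ1' : (1 : ℝ) ≤ Q := by exact_mod_cast hQ1
  have hQle : (Q : ℝ) ≤ x / A := Nat.floor_le (by positivity)
  have hQge : x / A ≤ 2 * Q := by
    have := Nat.lt_floor_add_one (x / A)
    linarith
  have hQx : (2 * Q : ℝ) ≤ x := by
    have : x / A ≤ x / 16 := by gcongr
    linarith
  set M : ℝ := ((2 * Q : ℕ) : ℝ) ^ (γ * k) with hM
  have hM1 : M ≤ (N : ℝ) ^ γ := by
    rw [hM, ← hxg]
    push_cast
    gcongr
  have hM2 : κ * (N : ℝ) ^ γ ≤ M := by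
    rw [hM, ← hxg, hκ, ← Real.mul_rpow (by positivity) (by positivity)]
    push_cast
    apply Real.rpow_le_rpow (by positivity) _ (by positivity)
    calc 1 / A * x = x / A := by ring
      _ ≤ 2 * Q := hQge
  set B : ℕ := ⌊(N : ℝ) ^ β⌋₊ with hB
  have hNβ : 1 ≤ (N : ℝ) ^ β := by linarith
  have hB1 : 1 ≤ B := (Nat.one_le_floor_iff _).2 hNβ
  have hB1' : (1 : ℝ) ≤ B := by exact_mod_cast hB1
  have hBle : (B : ℝ) ≤ (N : ℝ) ^ β := Nat.floor_le (by positivity)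
  have hBge : (N : ℝ) ^ β ≤ 2 * B := by
    have := Nat.lt_floor_add_one ((N : ℝ) ^ β)
    linarith
  set l : ℕ := Q / (B * (m + 1)) with hl
  have hBm : 0 < B * (m + 1) := by positivity
  have hl1 : κ₂ * (N : ℝ) ^ (1 / k - β) ≤ l := by
    have e1 : Q < (l + 1) * (B * (m + 1)) := by
      rw [hl]
      exact (Nat.div_lt_iff_lt_mul hBm).1 (Nat.lt_succ_self _)
    have e2 : (Q : ℝ) < (l + 1) * (B * (m + 1)) := by exact_mod_cast e1
    have e3 : x = (N : ℝ) ^ (1 / k - β) * (N : ℝ) ^ β := by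
      rw [hx, ← Real.rpow_add hN0]
      congr 1
      ring
    have e4 : x / A ≤ 2 * ((l + 1) * ((N : ℝ) ^ β * (m + 1))) := by
      calc x / A ≤ 2 * Q := hQge
        _ ≤ 2 * ((l + 1) * (B * (m + 1))) := by linarith
        _ ≤ _ := by gcongr
    have e5 : x ≤ (2 * A * (m + 1) * (l + 1)) * (N : ℝ) ^ β := by
      rw [div_le_iff₀ hA0] at e4
      linarith
    rw [e3] at e5
    have e6 : (N : ℝ) ^ (1 / k - β) ≤ 2 * A * (m + 1) * (l + 1) :=
      le_of_mul_le_mul_right e5 (by positivity)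
    have e7 : 2 * (κ₂ * (N : ℝ) ^ (1 / k - β)) ≤ l + 1 := by
      rw [hκ₂]
      calc 2 * (1 / (4 * A * (m + 1)) * (N : ℝ) ^ (1 / k - β)) ≤
          2 * (1 / (4 * A * (m + 1)) * (2 * A * (m + 1) * (l + 1))) := by gcongr
        _ = l + 1 := by
          field_simp
          ring
    linarith
  refine ⟨Q, B, l, hQ1, ?_, ?_, ?_, ?_, ?_, ?_, ?_⟩
  · rw [← mul_assoc]
    exact Nat.mul_div_le _ _
  · have e1 : ((4 * Q : ℝ)) ^ k ≤ 4 / A * N := by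
      calc (4 * Q : ℝ) ^ k ≤ (4 / A * x) ^ k := by
            apply pow_le_pow_left₀ (by positivity)
            calc (4 * Q : ℝ) ≤ 4 * (x / A) := by gcongr
              _ = 4 / A * x := by ring
        _ = (4 / A) ^ k * N := by rw [mul_pow, hxk]
        _ ≤ 4 / A * N := by
            gcongr
            apply pow_le_of_le_one (by positivity) _ (by omega)
            rw [div_le_one hA0]
            linarith
    have e2 : (m + 1 : ℝ) * (4 * Q) ^ k ≤ N / 4 := by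
      calc (m + 1 : ℝ) * (4 * Q) ^ k ≤ (m + 1) * (4 / A * N) := by gcongr
        _ = N / 4 := by
          rw [hA]
          field_simp
          ring
    have e3 : (⌈3 / 4 * c * M⌉₊ : ℝ) ≤ 3 / 4 * c * M + 1 := (Nat.ceil_lt_add_one (by positivity)).le
    have e4 : 3 / 4 * c * M ≤ 3 / 4 * c * (N : ℝ) ^ γ := by gcongr
    rw [Real.rpow_one] at h9 h10
    have e5 : ((((m + 1) * (4 * Q) ^ k + ⌈3 / 4 * c * M⌉₊ : ℕ)) : ℝ) ≤ N := by
      push_cast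
      linarith
    exact_mod_cast e5
  · calc j * (1 + C) ≤ c / 4 * κ * (N : ℝ) ^ γ := h6
      _ = c / 4 * (κ * (N : ℝ) ^ γ) := by ring
      _ ≤ _ := by gcongr
  · calc 1 + K * (N : ℝ) ^ e ≤ c / 8 * κ * (N : ℝ) ^ γ + c / 8 * κ * (N : ℝ) ^ γ := by linarith
      _ = c / 4 * (κ * (N : ℝ) ^ γ) := by ring
      _ ≤ _ := by gcongr
  · calc 1 ≤ ε * κ * (N : ℝ) ^ γ := h5
      _ = ε * (κ * (N : ℝ) ^ γ) := by ring
      _ ≤ _ := by gcongr
  · calc ε * M ≤ ε * (N : ℝ) ^ γ := by gcongr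
      _ ≤ κ₂ ^ (m + 1) * (N : ℝ) ^ ((1 / k - β) * (m + 1 : ℕ)) := h4
      _ = (κ₂ * (N : ℝ) ^ (1 / k - β)) ^ (m + 1) := by
          rw [mul_pow, Real.rpow_mul hN0.le, Real.rpow_natCast]
      _ ≤ _ := by gcongr
  · have e1 : -δ * B ≤ -(2 * Real.log N) := by nlinarith
    calc Real.exp (-δ * B) ≤ Real.exp (-(2 * Real.log N)) := Real.exp_le_exp.2 e1
      _ = 1 / (N : ℝ) ^ 2 := by
          rw [Real.exp_neg, mul_comm, Real.exp_mul, Real.exp_log hN0]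
          norm_num

variable {Ω : Type*} [MeasurableSpace Ω] {μ : Measure Ω}

/-- fixed number of terms. -/
theorem main_fixed [IsProbabilityMeasure μ] {X : ℕ → Ω → ℕ} (hX : ∀ n, Measurable (X n))
    (hi : iIndepFun X μ) {k : ℕ} (hk : 2 ≤ k) {γ c C : ℝ} (hγ : 0 < γ) (hγ1 : γ < 1) (hc : 0 < c)
    (hC : 0 < C)
    (hup : ∀ n : ℕ, 1 ≤ n → ∀ j : ℕ, μ.real {ω | X n ω = j} ≤ C / (n : ℝ) ^ (γ * k))
    (hlo : ∀ n : ℕ, 1 ≤ n → ∀ j : ℕ, (j : ℝ) ≤ c * (n : ℝ) ^ (γ * k) →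
      c / (n : ℝ) ^ (γ * k) ≤ μ.real {ω | X n ω = j})
    (hbd : ∀ n : ℕ, 1 ≤ n → ∀ j : ℕ, C * (n : ℝ) ^ (γ * k) < j → μ.real {ω | X n ω = j} = 0)
    {m j : ℕ} (hm : γ * k < m + 1) {θ : ℝ} (h1 : 1 - 1 / (k : ℝ) ≤ θ) (h2 : γ ≤ θ) (h3 : θ < 1)
    (hj : θ ^ j < γ) :
    ∀ᵐ ω ∂μ, ∀ᶠ N : ℕ in atTop, Rep k (fun g => X g ω) (m + 1 + j) N := by
  have hgood : ∀ᵐ ω ∂μ, ∀ g : ℕ, 1 ≤ g → (X g ω : ℝ) ≤ C * (g : ℝ) ^ (γ * k) := by
    have h4 : ∀ g i : ℕ, ∀ᵐ ω ∂μ, 1 ≤ g → C * (g : ℝ) ^ (γ * k) < i → X g ω ≠ i := by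
      intro g i
      by_cases hg : 1 ≤ g
      · by_cases hi' : C * (g : ℝ) ^ (γ * k) < i
        · have h5 := hbd g hg i hi'
          rw [measureReal_eq_zero_iff] at h5
          have h6 : ∀ᵐ ω ∂μ, ¬ X g ω = i := by
            rw [ae_iff]
            simpa using h5
          filter_upwards [h6] with ω hω _ _
          exact hω
        · exact Eventually.of_forall (fun ω _ h => absurd h hi')
      · exact Eventually.of_forall (fun ω h => absurd h hg)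
    have h5 : ∀ᵐ ω ∂μ, ∀ g i : ℕ, 1 ≤ g → C * (g : ℝ) ^ (γ * k) < i → X g ω ≠ i :=
      ae_all_iff.2 (fun g => ae_all_iff.2 (fun i => h4 g i))
    filter_upwards [h5] with ω hω g hg
    by_contra hcon
    exact hω g (X g ω) hg (not_le.1 hcon) rfl
  obtain ⟨K, hK, hgr⟩ := greedy hk hγ h1 h2 h3 hC.le j
  set c' : ℝ := c / 2 ^ (γ * k) with hc'
  have h2g : (1 : ℝ) ≤ 2 ^ (γ * (k : ℝ)) := Real.one_le_rpow (by norm_num) (by positivity)
  have hc'0 : 0 < c' := by positivity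
  have hc'c : c' ≤ c := div_le_self hc.le h2g
  set c₁ : ℝ := c' * (c' ^ 2 / (2 * (m + 1))) ^ m with hc₁
  have hc₁0 : 0 < c₁ := by positivity
  set ε : ℝ := c₁ / (4 * C ^ 2) with hε
  have hε0 : 0 < ε := by positivity
  have hpar := params (m := m) (j := j) (C := C) (K := K) hk hγ hγ1 hc'0 hm hj hε0
    (show 0 < 3 / 8 * ε * c₁ by positivity)
  set F : ℕ → Set Ω := fun N => {ω | (∀ g : ℕ, 1 ≤ g → (X g ω : ℝ) ≤ C * (g : ℝ) ^ (γ * k)) ∧
      ¬ Rep k (fun g => X g ω) (m + 1 + j) N} with hF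
  have hFb : ∀ᶠ N : ℕ in atTop, μ.real (F N) ≤ 1 / (N : ℝ) ^ 2 := by
    filter_upwards [hpar, eventually_ge_atTop 1] with N hN hN1
    obtain ⟨Q, B, l, hQ, hBl, hsum, hjj, hres, he1, he2, hB⟩ := hN
    have hQ' : (1 : ℝ) ≤ Q := by exact_mod_cast hQ
    have hM0 : 0 < ((2 * Q : ℕ) : ℝ) ^ (γ * k) := by
      apply Real.rpow_pos_of_pos
      push_cast
      positivity
    have hnM : ∀ n : ℕ, 2 * Q ≤ n → ((2 * Q : ℕ) : ℝ) ^ (γ * k) ≤ (n : ℝ) ^ (γ * k) := by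
      intro n hn
      exact Real.rpow_le_rpow (by positivity) (by exact_mod_cast hn) (by positivity)
    have hnM2 : ∀ n : ℕ, n ≤ 4 * Q →
        (n : ℝ) ^ (γ * k) ≤ 2 ^ (γ * k) * ((2 * Q : ℕ) : ℝ) ^ (γ * k) := by
      intro n hn
      rw [← Real.mul_rpow (by norm_num) (by positivity)]
      apply Real.rpow_le_rpow (by positivity) _ (by positivity)
      have : (n : ℝ) ≤ ((4 * Q : ℕ) : ℝ) := by exact_mod_cast hn
      push_cast at this ⊢
      linarith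
    refine le_trans (core hX hi hc'0 hC hgr hQ hN1 hBl hM0 ?_ ?_ hsum hjj hres hc₁ hε he1 he2) hB
    · intro n hn1 hn2 i hi'
      have hn0 : 1 ≤ n := by omega
      have e1 := hnM n hn1
      have e2 := hnM2 n hn2
      have hn0' : (0 : ℝ) < (n : ℝ) ^ (γ * k) := lt_of_lt_of_le hM0 e1
      refine le_trans ?_ (hlo n hn0 i (hi'.trans ?_))
      · rw [hc', div_div]
        exact div_le_div_of_nonneg_left hc.le hn0' e2
      · exact mul_le_mul hc'c e1 hM0.le hc.le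
    · intro n hn1 _ i
      have hn0 : 1 ≤ n := by omega
      exact (hup n hn0 i).trans (div_le_div_of_nonneg_left hC.le hM0 (hnM n hn1))
  obtain ⟨N₀, hN₀⟩ := eventually_atTop.1 hFb
  have hsumm : Summable (fun N : ℕ => 1 / (((N + N₀ : ℕ)) : ℝ) ^ 2) := by
    have h4 := Real.summable_one_div_nat_pow.2 (show 1 < 2 by norm_num)
    exact (summable_nat_add_iff N₀).2 h4
  have hfin : ∑' N, μ (F (N + N₀)) ≠ ⊤ := by
    have h4 : ∀ N, μ (F (N + N₀)) ≤ ENNReal.ofReal (1 / (((N + N₀ : ℕ)) : ℝ) ^ 2) := by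
      intro N
      have h5 := hN₀ (N + N₀) (by omega)
      rw [← ENNReal.toReal_le_toReal (measure_ne_top _ _) (by finiteness),
        ENNReal.toReal_ofReal (by positivity)]
      exact h5
    refine ne_top_of_le_ne_top ?_ (ENNReal.tsum_le_tsum h4)
    rw [← ENNReal.ofReal_tsum_of_nonneg (fun _ => by positivity) hsumm]
    exact ENNReal.ofReal_ne_top
  have hbc := ae_eventually_notMem hfin
  filter_upwards [hgood, hbc] with ω hω1 hω2
  rw [eventually_atTop] at hω2 ⊢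
  obtain ⟨N₁, hN₁⟩ := hω2
  refine ⟨N₁ + N₀, fun N hN => ?_⟩
  have h4 := hN₁ (N - N₀) (by omega)
  rw [Nat.sub_add_cancel (by omega)] at h4
  by_contra hcon
  exact h4 ⟨hω1, hcon⟩

/-- one more term. -/
theorem rep_succ {k : ℕ} {u : ℕ → ℕ} {s : ℕ} (h : ∀ᶠ N : ℕ in atTop, Rep k u s N) :
    ∀ᶠ N : ℕ in atTop, Rep k u (s + 1) N := by
  rw [eventually_atTop] at h ⊢
  obtain ⟨N₀, hN₀⟩ := h
  refine ⟨N₀ + (1 + u 1), fun N hN => ?_⟩
  obtain ⟨n, hn1, hn2⟩ := hN₀ (N - (1 + u 1)) (by omega)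
  refine ⟨Fin.cons 1 n, ?_, ?_⟩
  · intro i
    refine Fin.cases ?_ (fun i => ?_) i
    · simp
    · simpa using hn1 i
  · rw [Fin.sum_univ_succ]
    simp only [Fin.cons_zero, Fin.cons_succ, one_pow]
    rw [hn2]
    omega

theorem rep_mono {k : ℕ} {u : ℕ → ℕ} {s s' : ℕ} (hs : s ≤ s')
    (h : ∀ᶠ N : ℕ in atTop, Rep k u s N) : ∀ᶠ N : ℕ in atTop, Rep k u s' N := by
  induction s', hs using Nat.le_induction with
  | base => exact h
  | succ s' _ ih => exact rep_succ ih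

/-- the arithmetic of the number of terms. -/
theorem terms {k : ℕ} (hk : 2 ≤ k) {γ : ℝ} (hγ : 0 < γ) (hγ1 : γ < 1) :
    ∃ (m j : ℕ) (θ : ℝ), γ * k < m + 1 ∧ 1 - 1 / (k : ℝ) ≤ θ ∧ γ ≤ θ ∧ θ < 1 ∧ θ ^ j < γ ∧
      ((m + 1 + j : ℕ) : ℝ) ≤ (γ + Real.log (1 / γ)) * k + 2 := by
  have hk0 : (0 : ℝ) < k := by positivity
  have hk2 : (2 : ℝ) ≤ k := by exact_mod_cast hk
  have hlog : 0 < Real.log (1 / γ) := Real.log_pos (by rw [one_lt_div hγ]; exact hγ1)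
  have hlog2 : Real.log (1 / γ) = - Real.log γ := by rw [one_div, Real.log_inv]
  rcases le_or_gt γ (1 - 1 / (k : ℝ)) with h | h
  · refine ⟨⌊γ * k⌋₊, ⌊k * Real.log (1 / γ)⌋₊ + 1, 1 - 1 / (k : ℝ), Nat.lt_floor_add_one _, le_rfl,
      h, by linarith [show (0 : ℝ) < 1 / k by positivity], ?_, ?_⟩
    · have hθ0 : 0 < 1 - 1 / (k : ℝ) := lt_of_lt_of_le hγ h
      rw [← Real.log_lt_log_iff (by positivity) hγ, Real.log_pow]
      have h1 : Real.log (1 - 1 / (k : ℝ)) ≤ - (1 / k) := by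
        have := Real.log_le_sub_one_of_pos hθ0
        linarith
      have h2 : k * Real.log (1 / γ) < ((⌊k * Real.log (1 / γ)⌋₊ + 1 : ℕ) : ℝ) := by
        push_cast
        exact Nat.lt_floor_add_one _
      calc ((⌊k * Real.log (1 / γ)⌋₊ + 1 : ℕ) : ℝ) * Real.log (1 - 1 / (k : ℝ))
          ≤ ((⌊k * Real.log (1 / γ)⌋₊ + 1 : ℕ) : ℝ) * (- (1 / k)) := by gcongr
        _ < (k * Real.log (1 / γ)) * (- (1 / k)) := by
            apply mul_lt_mul_of_neg_right h2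
            rw [neg_lt_zero]
            positivity
        _ = Real.log γ := by
            rw [hlog2]
            field_simp
    · have h1 : (⌊γ * k⌋₊ : ℝ) ≤ γ * k := Nat.floor_le (by positivity)
      have h2 : (⌊k * Real.log (1 / γ)⌋₊ : ℝ) ≤ k * Real.log (1 / γ) := Nat.floor_le (by positivity)
      push_cast
      linarith
  · refine ⟨k - 1, 2, γ, ?_, h.le, le_rfl, hγ1, ?_, ?_⟩
    · rw [Nat.cast_sub (by omega)]
      push_cast
      nlinarith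
    · nlinarith
    · have h1 : 1 - γ ≤ Real.log (1 / γ) := by
        rw [hlog2]
        have := Real.log_le_sub_one_of_pos hγ
        linarith
      have h2 : ((k - 1 + 1 + 2 : ℕ) : ℝ) = k + 2 := by
        rw [Nat.sub_add_cancel (by omega)]
        push_cast
        ring
      rw [h2]
      nlinarith

/-- the theorem. -/
theorem main [IsProbabilityMeasure μ] {X : ℕ → Ω → ℕ} (hX : ∀ n, Measurable (X n))
    (hi : iIndepFun X μ) {k : ℕ} (hk : 2 ≤ k) {γ c C : ℝ} (hγ : 0 < γ) (hγ1 : γ < 1) (hc : 0 < c)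
    (hC : 0 < C)
    (hup : ∀ n : ℕ, 1 ≤ n → ∀ j : ℕ, μ.real {ω | X n ω = j} ≤ C / (n : ℝ) ^ (γ * k))
    (hlo : ∀ n : ℕ, 1 ≤ n → ∀ j : ℕ, (j : ℝ) ≤ c * (n : ℝ) ^ (γ * k) →
      c / (n : ℝ) ^ (γ * k) ≤ μ.real {ω | X n ω = j})
    (hbd : ∀ n : ℕ, 1 ≤ n → ∀ j : ℕ, C * (n : ℝ) ^ (γ * k) < j → μ.real {ω | X n ω = j} = 0) :
    ∀ᵐ ω ∂μ, ∀ s : ℕ, (γ + Real.log (1 / γ)) * k + 2 ≤ s →
      ∀ᶠ N : ℕ in atTop, Rep k (fun g => X g ω) s N := by
  obtain ⟨m, j, θ, hm, h1, h2, h3, hj, hs⟩ := terms hk hγ hγ1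
  filter_upwards [main_fixed hX hi hk hγ hγ1 hc hC hup hlo hbd hm h1 h2 h3 hj] with ω hω s hs'
  refine rep_mono ?_ hω
  exact_mod_cast hs.trans hs'

end Pool.Agent.J4H38.SW
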