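import Mathlib

/-!
# Smoothed Waring: the probabilistic part
-/

set_option autoImplicit false

open MeasureTheory ProbabilityTheory

namespace Pool.Agent.J4H38.SW

variable {Ω : Type*} [MeasurableSpace Ω] {μ : Measure Ω}

/-- conditioning on a countable-valued independent variable. -/
theorem cond_le [IsProbabilityMeasure μ] {A B : Type*} [Countable A] [MeasurableSpace A]
    [MeasurableSingletonClass A] [MeasurableSpace B] {Z : Ω → A} {V : Ω → B}
    (h : IndepFun Z V μ) (hZ : Measurable Z) (hV : Measurable V)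
    (E : Set A) (G : A → Set B) (hG : ∀ z, MeasurableSet (G z)) {p : ℝ}
    (hp0 : 0 ≤ p) (hp : ∀ z ∈ E, μ.real (V ⁻¹' G z) ≤ p) :
    μ.real {ω | Z ω ∈ E ∧ V ω ∈ G (Z ω)} ≤ p * μ.real (Z ⁻¹' E) := by
  have hu : {ω | Z ω ∈ E ∧ V ω ∈ G (Z ω)} = ⋃ z : E, (Z ⁻¹' {z.1} ∩ V ⁻¹' G z.1) := by
    ext ω
    simp only [Set.mem_ofPred_eq, Set.mem_iUnion, Set.mem_inter_iff, Set.mem_preimage,
      Set.mem_singleton_iff]
    constructor
    · rintro ⟨h1, h2⟩
      exact ⟨⟨Z ω, h1⟩, rfl, h2⟩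
    · rintro ⟨⟨z, hz⟩, h1, h2⟩
      have h1' : Z ω = z := h1
      rw [h1']
      exact ⟨hz, h2⟩
  have he : Z ⁻¹' E = ⋃ z : E, Z ⁻¹' {z.1} := by
    ext ω
    simp only [Set.mem_preimage, Set.mem_iUnion, Set.mem_singleton_iff]
    constructor
    · intro h1
      exact ⟨⟨Z ω, h1⟩, rfl⟩
    · rintro ⟨⟨z, hz⟩, h1⟩
      have h1' : Z ω = z := h1
      rw [h1']
      exact hz
  have hdis : Pairwise (Function.onFun Disjoint fun z : E => Z ⁻¹' {z.1}) := by
    intro a b hab
    rw [Function.onFun, Set.disjoint_left]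
    intro ω h1 h2
    apply hab
    apply Subtype.ext
    have h1' : Z ω = a.1 := h1
    have h2' : Z ω = b.1 := h2
    rw [← h1', ← h2']
  have hdis2 : Pairwise (Function.onFun Disjoint fun z : E => (Z ⁻¹' {z.1} ∩ V ⁻¹' G z.1)) := by
    intro a b hab
    exact (hdis hab).mono Set.inter_subset_left Set.inter_subset_left
  have key : μ {ω | Z ω ∈ E ∧ V ω ∈ G (Z ω)} ≤ ENNReal.ofReal p * μ (Z ⁻¹' E) := by
    rw [hu, measure_iUnion hdis2 (fun z => (hZ (measurableSet_singleton _)).inter (hV (hG _))), he,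
      measure_iUnion hdis (fun z => hZ (measurableSet_singleton _)), ← ENNReal.tsum_mul_left]
    apply ENNReal.tsum_le_tsum
    intro z
    rw [h.measure_inter_preimage_eq_mul _ _ (measurableSet_singleton _) (hG _), mul_comm]
    gcongr
    exact (ENNReal.le_ofReal_iff_toReal_le (measure_ne_top _ _) hp0).2 (hp z.1 z.2)
  rw [Measure.real, Measure.real]
  have h2 := ENNReal.toReal_mono (by finiteness) key
  rwa [ENNReal.toReal_mul, ENNReal.toReal_ofReal hp0] at h2

/-- Bonferroni's inequality. -/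
theorem bonferroni [IsProbabilityMeasure μ] {T : Type*} [DecidableEq T] (A : T → Set Ω)
    (hA : ∀ t, MeasurableSet (A t)) (a b : ℝ) (ha : ∀ t, a ≤ μ.real (A t)) (hb0 : 0 ≤ b)
    (hb : ∀ t t', t ≠ t' → μ.real (A t ∩ A t') ≤ b) (S : Finset T) :
    S.card * a - (S.card : ℝ) ^ 2 * b ≤ μ.real (⋃ t ∈ S, A t) := by
  induction S using Finset.induction_on with
  | empty => simp
  | insert x S hx ih =>
    rw [Finset.card_insert_of_notMem hx, Finset.set_biUnion_insert]
    have hm : MeasurableSet (⋃ t ∈ S, A t) := Finset.measurableSet_biUnion _ (fun t _ => hA t)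
    have h1 : μ.real (A x ∪ ⋃ t ∈ S, A t) + μ.real (A x ∩ ⋃ t ∈ S, A t) =
        μ.real (A x) + μ.real (⋃ t ∈ S, A t) := measureReal_union_add_inter hm (measure_ne_top _ _) (measure_ne_top _ _)
    have h2 : μ.real (A x ∩ ⋃ t ∈ S, A t) ≤ S.card * b := by
      rw [Set.inter_iUnion₂]
      calc μ.real (⋃ t ∈ S, A x ∩ A t) ≤ ∑ t ∈ S, μ.real (A x ∩ A t) :=
            measureReal_biUnion_finset_le _ _
        _ ≤ ∑ t ∈ S, b := Finset.sum_le_sum (fun t ht => hb x t (fun h => hx (h ▸ ht)))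
        _ = S.card * b := by simp
    have h3 := ha x
    push_cast
    have h4 : (0 : ℝ) ≤ S.card := by positivity
    nlinarith [mul_nonneg h4 hb0]

/-- the restriction of a function, as a random element. -/
abbrev rs (X : ℕ → Ω → ℕ) (S : Finset ℕ) (ω : Ω) : S → ℕ := fun i => X i ω

/-- extension by zero. -/
def ext (S : Finset ℕ) (z : S → ℕ) (j : ℕ) : ℕ := if h : j ∈ S then z ⟨j, h⟩ else 0

omit [MeasurableSpace Ω] in
theorem ext_rs (X : ℕ → Ω → ℕ) (S : Finset ℕ) (ω : Ω) {j : ℕ} (h : j ∈ S) :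
    ext S (rs X S ω) j = X j ω := by
  simp [ext, h, rs]

theorem rs_measurable {X : ℕ → Ω → ℕ} (hX : ∀ n, Measurable (X n)) (S : Finset ℕ) :
    Measurable (rs X S) := measurable_pi_lambda _ (fun i => hX i)

theorem measurable_all {S : Finset ℕ} (E : Set (S → ℕ)) : MeasurableSet E :=
  (Set.to_countable E).measurableSet

/-- block version of `cond_le`. -/
theorem block_le [IsProbabilityMeasure μ] {X : ℕ → Ω → ℕ} (hX : ∀ n, Measurable (X n))
    (hi : iIndepFun X μ) (S S' : Finset ℕ) (hS : Disjoint S S') (E : Set (S → ℕ))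
    (G : (S → ℕ) → Set (S' → ℕ)) {p : ℝ} (hp0 : 0 ≤ p)
    (hp : ∀ z ∈ E, μ.real (rs X S' ⁻¹' G z) ≤ p) :
    μ.real {ω | rs X S ω ∈ E ∧ rs X S' ω ∈ G (rs X S ω)} ≤ p * μ.real (rs X S ⁻¹' E) :=
  cond_le (hi.indepFun_finset S S' hS hX) (rs_measurable hX S) (rs_measurable hX S') E G
    (fun _ => measurable_all _) hp0 hp

/-- one variable hits a value determined by the others. -/
theorem hit_le [IsProbabilityMeasure μ] {X : ℕ → Ω → ℕ} (hX : ∀ n, Measurable (X n))
    (hi : iIndepFun X μ) (S : Finset ℕ) (a : ℕ) (ha : a ∉ S) (E : Set (S → ℕ))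
    (g : (S → ℕ) → ℕ) {δ : ℝ} (hδ0 : 0 ≤ δ) (hδ : ∀ j : ℕ, μ.real {ω | X a ω = j} ≤ δ) :
    μ.real {ω | rs X S ω ∈ E ∧ X a ω = g (rs X S ω)} ≤ δ * μ.real (rs X S ⁻¹' E) := by
  have h := block_le (μ := μ) hX hi S {a} (by simpa using ha) E
    (fun z => {v | v ⟨a, by simp⟩ = g z}) hδ0 (fun z _ => hδ (g z))
  exact h

/-- two different tuples. -/
theorem pair_upper [IsProbabilityMeasure μ] {X : ℕ → Ω → ℕ} (hX : ∀ n, Measurable (X n))
    (hi : iIndepFun X μ) {m l : ℕ} (n : Fin (m + 1) → Fin l → ℕ)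
    (hn : ∀ p i p' i', n p i = n p' i' → p = p' ∧ i = i') {δ : ℝ} (hδ0 : 0 ≤ δ)
    (hup : ∀ p i (j : ℕ), μ.real {ω | X (n p i) ω = j} ≤ δ) (r r' : ℕ)
    (t t' : Fin (m + 1) → Fin l) (h : t ≠ t') :
    μ.real ({ω | ∑ p, X (n p (t p)) ω = r} ∩ {ω | ∑ p, X (n p (t' p)) ω = r'}) ≤ δ ^ 2 := by
  classical
  obtain ⟨q, hq⟩ : ∃ q, t q ≠ t' q := by
    by_contra hc
    push Not at hc
    exact h (funext hc)
  set S : Finset ℕ := ((Finset.univ.erase q).image (fun p => n p (t p))) ∪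
    ((Finset.univ.erase q).image (fun p => n p (t' p))) with hS
  set a := n q (t q) with ha
  set b := n q (t' q) with hb
  have hab : a ≠ b := fun hc => hq (hn _ _ _ _ hc).2
  have haS : a ∉ S := by
    rw [hS, Finset.mem_union, Finset.mem_image, Finset.mem_image]
    rintro (⟨p, hp, hc⟩ | ⟨p, hp, hc⟩)
    · exact (Finset.ne_of_mem_erase hp) (hn _ _ _ _ hc).1
    · exact (Finset.ne_of_mem_erase hp) (hn _ _ _ _ hc).1
  have hbS : b ∉ S := by
    rw [hS, Finset.mem_union, Finset.mem_image, Finset.mem_image]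
    rintro (⟨p, hp, hc⟩ | ⟨p, hp, hc⟩)
    · exact (Finset.ne_of_mem_erase hp) (hn _ _ _ _ hc).1
    · exact (Finset.ne_of_mem_erase hp) (hn _ _ _ _ hc).1
  have hS1 : ∀ p ∈ Finset.univ.erase q, n p (t p) ∈ S := fun p hp =>
    Finset.mem_union_left _ (Finset.mem_image_of_mem _ hp)
  have hS2 : ∀ p ∈ Finset.univ.erase q, n p (t' p) ∈ S := fun p hp =>
    Finset.mem_union_right _ (Finset.mem_image_of_mem _ hp)
  -- the second tuple
  have e2 : μ.real {ω | ∑ p, X (n p (t' p)) ω = r'} ≤ δ := by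
    have h1 := hit_le (μ := μ) hX hi S b hbS Set.univ
      (fun z => r' - ∑ p ∈ Finset.univ.erase q, ext S z (n p (t' p))) hδ0 (hup q (t' q))
    have h2 : μ.real (rs X S ⁻¹' Set.univ) ≤ 1 := measureReal_le_one
    calc μ.real {ω | ∑ p, X (n p (t' p)) ω = r'} ≤ μ.real {ω | rs X S ω ∈ Set.univ ∧
          X b ω = r' - ∑ p ∈ Finset.univ.erase q, ext S (rs X S ω) (n p (t' p))} := by
          apply measureReal_mono _ (measure_ne_top _ _)
          intro ω hω
          refine ⟨Set.mem_univ _, ?_⟩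
          have hω' : ∑ p, X (n p (t' p)) ω = r' := hω
          have e := Finset.add_sum_erase Finset.univ (fun p => X (n p (t' p)) ω) (Finset.mem_univ q)
          rw [Finset.sum_congr rfl (fun p hp => ext_rs X S ω (hS2 p hp))]
          change X (n q (t' q)) ω = r' - _
          omega
      _ ≤ δ * μ.real (rs X S ⁻¹' Set.univ) := h1
      _ ≤ δ := by nlinarith
  -- both
  set S2 : Finset ℕ := insert b S with hS2d
  have haS2 : a ∉ S2 := by
    rw [hS2d, Finset.mem_insert]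
    rintro (hc | hc)
    · exact hab hc
    · exact haS hc
  have h3 := hit_le (μ := μ) hX hi S2 a haS2 {z | ∑ p, ext S2 z (n p (t' p)) = r'}
      (fun z => r - ∑ p ∈ Finset.univ.erase q, ext S2 z (n p (t p))) hδ0 (hup q (t q))
  have hm1 : ∀ p, n p (t' p) ∈ S2 := by
    intro p
    by_cases hp : p = q
    · rw [hp]
      exact Finset.mem_insert_self _ _
    · exact Finset.mem_insert_of_mem (hS2 p (Finset.mem_erase.2 ⟨hp, Finset.mem_univ _⟩))
  have hm2 : ∀ p ∈ Finset.univ.erase q, n p (t p) ∈ S2 := fun p hp =>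
    Finset.mem_insert_of_mem (hS1 p hp)
  have h4 : rs X S2 ⁻¹' {z | ∑ p, ext S2 z (n p (t' p)) = r'} =
      {ω | ∑ p, X (n p (t' p)) ω = r'} := by
    ext ω
    simp only [Set.mem_preimage, Set.mem_ofPred_eq]
    rw [Finset.sum_congr rfl (fun p _ => ext_rs X S2 ω (hm1 p))]
  rw [h4] at h3
  calc μ.real ({ω | ∑ p, X (n p (t p)) ω = r} ∩ {ω | ∑ p, X (n p (t' p)) ω = r'})
      ≤ μ.real {ω | rs X S2 ω ∈ {z | ∑ p, ext S2 z (n p (t' p)) = r'} ∧
          X a ω = r - ∑ p ∈ Finset.univ.erase q, ext S2 (rs X S2 ω) (n p (t p))} := by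
        apply measureReal_mono _ (measure_ne_top _ _)
        intro ω hω
        obtain ⟨h5, h6⟩ := hω
        have h5' : ∑ p, X (n p (t p)) ω = r := h5
        have h6' : ∑ p, X (n p (t' p)) ω = r' := h6
        refine ⟨?_, ?_⟩
        · simp only [Set.mem_ofPred_eq]
          rw [Finset.sum_congr rfl (fun p _ => ext_rs X S2 ω (hm1 p))]
          exact h6'
        · have e := Finset.add_sum_erase Finset.univ (fun p => X (n p (t p)) ω) (Finset.mem_univ q)
          rw [Finset.sum_congr rfl (fun p hp => ext_rs X S2 ω (hm2 p hp))]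
          change X (n q (t q)) ω = r - _
          omega
    _ ≤ δ * μ.real {ω | ∑ p, X (n p (t' p)) ω = r'} := h3
    _ ≤ δ ^ 2 := by nlinarith

/-- a single tuple. -/
theorem event_lower [IsProbabilityMeasure μ] {X : ℕ → Ω → ℕ} (hX : ∀ n, Measurable (X n))
    (hi : iIndepFun X μ) {m : ℕ} (n : Fin (m + 1) → ℕ) (hn : Function.Injective n) {M c : ℝ}
    (hM : 0 < M) (hc : 0 < c)
    (hlo : ∀ p (j : ℕ), (j : ℝ) ≤ c * M → c / M ≤ μ.real {ω | X (n p) ω = j}) (r : ℕ)
    (hr1 : c / 2 * M ≤ r) (hr2 : (r : ℝ) ≤ c * M) :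
    c * (c ^ 2 / (2 * (m + 1))) ^ m / M ≤ μ.real {ω | ∑ p, X (n p) ω = r} := by
  classical
  set K : ℕ := ⌊c * M / (2 * (m + 1))⌋₊ with hK
  have hK0 : 0 ≤ c * M / (2 * (m + 1)) := by positivity
  have hK1 : (K : ℝ) ≤ c * M / (2 * (m + 1)) := Nat.floor_le hK0
  have hK2 : c * M / (2 * (m + 1)) ≤ (K + 1 : ℝ) := (Nat.lt_floor_add_one _).le
  let y : (Fin m → Fin (K + 1)) → Fin (m + 1) → ℕ := fun j =>
    Fin.cons (r - ∑ p, (j p : ℕ)) (fun p => (j p : ℕ))
  have hsum : ∀ j : Fin m → Fin (K + 1), ((∑ p, (j p : ℕ) : ℕ) : ℝ) ≤ c / 2 * M := by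
    intro j
    push_cast
    calc ∑ p, ((j p : ℕ) : ℝ) ≤ ∑ _p : Fin m, (K : ℝ) := by
          apply Finset.sum_le_sum
          intro p _
          have := (j p).2
          exact_mod_cast (by omega : (j p : ℕ) ≤ K)
      _ = m * K := by simp
      _ ≤ m * (c * M / (2 * (m + 1))) := by gcongr
      _ ≤ (m + 1) * (c * M / (2 * (m + 1))) := by nlinarith
      _ = c / 2 * M := by field_simp
  have hsumr : ∀ j : Fin m → Fin (K + 1), ∑ p, (j p : ℕ) ≤ r := by
    intro j
    have := (hsum j).trans hr1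
    exact_mod_cast this
  have hy1 : ∀ j, ∑ p, y j p = r := by
    intro j
    simp only [y, Fin.sum_univ_succ, Fin.cons_zero, Fin.cons_succ]
    have := hsumr j
    omega
  have hy2 : ∀ j p, (y j p : ℝ) ≤ c * M := by
    intro j p
    refine Fin.cases ?_ (fun p => ?_) p
    · simp only [y, Fin.cons_zero]
      have : ((r - ∑ p, (j p : ℕ) : ℕ) : ℝ) ≤ r := by exact_mod_cast Nat.sub_le _ _
      linarith
    · simp only [y, Fin.cons_succ]
      have h1 : ((j p : ℕ) : ℝ) ≤ K := by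
        have := (j p).2
        exact_mod_cast (by omega : (j p : ℕ) ≤ K)
      have h2 : c * M / (2 * (m + 1)) ≤ c * M := by
        apply div_le_self (by positivity)
        have : (0 : ℝ) ≤ m := by positivity
        linarith
      linarith
  set F : (Fin m → Fin (K + 1)) → Set Ω := fun j => ⋂ p ∈ (Finset.univ : Finset (Fin (m + 1))),
    X (n p) ⁻¹' {y j p} with hF
  have hFm : ∀ j, MeasurableSet (F j) := fun j =>
    Finset.measurableSet_biInter _ (fun p _ => hX _ (measurableSet_singleton _))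
  have hFl : ∀ j, (c / M) ^ (m + 1) ≤ μ.real (F j) := by
    intro j
    have h1 := (hi.precomp hn).measure_inter_preimage_eq_mul Finset.univ
      (sets := fun p => {y j p}) (fun p _ => measurableSet_singleton _)
    have h2 : μ.real (F j) = ∏ p, μ.real {ω | X (n p) ω = y j p} := by
      rw [Measure.real, hF]
      simp only
      rw [h1, ENNReal.toReal_prod]
      rfl
    rw [h2]
    calc (c / M) ^ (m + 1) = ∏ _p : Fin (m + 1), (c / M) := by
          rw [Finset.prod_const, Finset.card_univ, Fintype.card_fin]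
      _ ≤ ∏ p, μ.real {ω | X (n p) ω = y j p} := by
          apply Finset.prod_le_prod
          · intro p _
            positivity
          · intro p _
            exact hlo p _ (hy2 j p)
  have hFd : Set.PairwiseDisjoint (↑(Finset.univ : Finset (Fin m → Fin (K + 1)))) F := by
    intro j _ j' _ hjj
    rw [Function.onFun, Set.disjoint_left]
    intro ω h1 h2
    apply hjj
    funext p
    have h3 : X (n p.succ) ω = y j p.succ := Set.mem_iInter₂.1 h1 p.succ (Finset.mem_univ _)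
    have h4 : X (n p.succ) ω = y j' p.succ := Set.mem_iInter₂.1 h2 p.succ (Finset.mem_univ _)
    have h5 : y j p.succ = y j' p.succ := h3.symm.trans h4
    simp only [y, Fin.cons_succ] at h5
    exact Fin.ext h5
  have hsub : (⋃ j ∈ (Finset.univ : Finset (Fin m → Fin (K + 1))), F j) ⊆
      {ω | ∑ p, X (n p) ω = r} := by
    intro ω hω
    obtain ⟨j, _, hj⟩ := Set.mem_iUnion₂.1 hω
    have h3 : ∀ p, X (n p) ω = y j p := fun p => Set.mem_iInter₂.1 hj p (Finset.mem_univ _)
    simp only [Set.mem_ofPred_eq]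
    rw [Finset.sum_congr rfl (fun p _ => h3 p)]
    exact hy1 j
  calc c * (c ^ 2 / (2 * (m + 1))) ^ m / M
      = (c * M / (2 * (m + 1))) ^ m * (c / M) ^ (m + 1) := by
        rw [div_pow, div_pow, div_pow, mul_pow, pow_succ, pow_succ]
        field_simp
        ring
    _ ≤ (K + 1 : ℝ) ^ m * (c / M) ^ (m + 1) := by gcongr
    _ = ∑ _j : Fin m → Fin (K + 1), (c / M) ^ (m + 1) := by simp
    _ ≤ ∑ j, μ.real (F j) := Finset.sum_le_sum (fun j _ => hFl j)
    _ = μ.real (⋃ j ∈ (Finset.univ : Finset (Fin m → Fin (K + 1))), F j) :=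
        (measureReal_biUnion_finset hFd (fun j _ => hFm j)).symm
    _ ≤ _ := measureReal_mono hsub (measure_ne_top _ _)

end Pool.Agent.J4H38.SW
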